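import Mathlib

/-!
# Average `π`-adic complexity of finite sequences: definitions
-/

namespace Pool.Agent.H78R3.PiAdic

open Finset Module

/-- The sequence `s` is the coefficient sequence of the `π`-adic number `f / g`: for every `n`,
`f ≡ g (s_0 + s_1 π + … + s_{n-1} π^(n-1))` modulo `π^n`. -/
def IsExpansion {R : Type*} [CommRing R] {N : ℕ} (p f g : R) (s : ℕ → Fin N) : Prop :=
  ∀ n : ℕ, p ^ n ∣ f - g * ∑ i ∈ Finset.range n, ((s i : ℕ) : R) * p ^ i

/-- The `π`-adic complexity of the finite sequence `a`: the least size `max (φ f) (φ g)` of a pair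
`(f, g)`, `g` invertible modulo `π`, such that the coefficient sequence of `f / g` starts
with `a`. -/
noncomputable def finComplexity {R : Type*} [CommRing R] {N : ℕ} (p : R) (φ : R → ℝ) {n : ℕ}
    (a : Fin n → Fin N) : ℝ :=
  sInf {x | ∃ f g : R, IsCoprime g p ∧
    (∃ s : ℕ → Fin N, (∀ i : Fin n, s i = a i) ∧ IsExpansion p f g s) ∧ x = max (φ f) (φ g)}

/-- The average of the complexity over all `N^n` sequences of length `n`. -/
noncomputable def avgComplexity {R : Type*} [CommRing R] (N : ℕ) (p : R) (φ : R → ℝ) (n : ℕ) : ℝ :=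
  (∑ a : Fin n → Fin N, finComplexity p φ a) / (N : ℝ) ^ n

/-- The size of `u + v π` in the case `π² = -N`: `log_N (u² + N v²)` (and `0` for the zero element).
Here `b` is the `ℤ`-basis `1, π`. -/
noncomputable def sizeI {R : Type*} [CommRing R] (N : ℕ) (b : Basis (Fin 2) ℤ R) (x : R) : ℝ :=
  Real.logb N ((b.repr x 0 : ℝ) ^ 2 + N * (b.repr x 1 : ℝ) ^ 2)

/-- The size of `∑ u_i π^i` in the case `π^d = N`: the maximum of `d log_N |u_i| + i` over the `i`
with `u_i ≠ 0` (and `0` for the zero element). Here `b` is the `ℤ`-basis `1, π, …, π^(d-1)`. -/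
noncomputable def sizeII {R : Type*} [CommRing R] {d : ℕ} (N : ℕ) (b : Basis (Fin d) ℤ R) (x : R) :
    ℝ :=
  sSup {y | ∃ i : Fin d, b.repr x i ≠ 0 ∧ y = d * Real.logb N |(b.repr x i : ℝ)| + (i : ℕ)}

end Pool.Agent.H78R3.PiAdic
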