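import Pool.Agent.H78R3.Pi.Lattice
import Pool.Agent.H78R3.Pi.Defs

/-!
# Average `π`-adic complexity of finite sequences
-/

namespace Pool.Agent.H78R3.PiAdic

open Finset Module

variable {R : Type*} [CommRing R] {d N : ℕ}

namespace Dat

theorem ev_eq_range (D : Dat R d N) {n : ℕ} {a : Fin n → Fin N} {s : ℕ → Fin N}
    (h : ∀ i : Fin n, s i = a i) :
    ∑ i ∈ Finset.range n, ((s i : ℕ) : R) * D.p ^ i = D.ev a := by
  unfold ev
  rw [← Fin.sum_univ_eq_sum_range (fun i => ((s i : ℕ) : R) * D.p ^ i)]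
  exact Finset.sum_congr rfl fun i _ => by rw [h i]

/-- Every congruence modulo `π^n` extends to an expansion. -/
theorem exists_expansion (D : Dat R d N) {n : ℕ} {a : Fin n → Fin N} {f g : R}
    (hg : IsCoprime g D.p) (h : D.p ^ n ∣ f - D.ev a * g) :
    ∃ s : ℕ → Fin N, (∀ i : Fin n, s i = a i) ∧ IsExpansion D.p f g s := by
  obtain ⟨x, y, hxy⟩ := hg
  have hstep : ∀ r : R, ∃ (t : Fin N) (r' : R), r = g * ((t : ℕ) : R) + D.p * r' := by
    intro r
    obtain ⟨t, z, hz⟩ := D.exists_digit (x * r)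
    refine ⟨t, g * z + y * r, ?_⟩
    have h1 : x * r = D.p * z + ((t : ℕ) : R) := by rw [← hz]; ring
    calc r = (x * g + y * D.p) * r := by rw [hxy, one_mul]
      _ = g * (x * r) + D.p * (y * r) := by ring
      _ = g * (D.p * z + ((t : ℕ) : R)) + D.p * (y * r) := by rw [h1]
      _ = _ := by ring
  choose dig rem hdr using hstep
  obtain ⟨r₀, hr₀⟩ := h
  let q : ℕ → R := fun k => rem^[k] r₀
  let s : ℕ → Fin N := fun i => if h : i < n then a ⟨i, h⟩ else dig (q (i - n))
  have hs : ∀ i : Fin n, s i = a i := fun i => by simp [s]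
  have hinv : ∀ k, f - g * ∑ i ∈ Finset.range (n + k), ((s i : ℕ) : R) * D.p ^ i =
      D.p ^ (n + k) * q k := by
    intro k
    induction k with
    | zero =>
      rw [Nat.add_zero, D.ev_eq_range hs, mul_comm g, hr₀]
      rfl
    | succ k ih =>
      have e1 : s (n + k) = dig (q k) := by simp [s]
      have e2 : q (k + 1) = rem (q k) := Function.iterate_succ_apply' rem k r₀
      rw [← Nat.add_assoc, Finset.sum_range_succ, mul_add, ← sub_sub, ih, e1, e2, pow_succ]
      have e3 := hdr (q k)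
      linear_combination (D.p ^ (n + k)) * e3
  refine ⟨s, hs, fun m => ?_⟩
  rcases le_or_gt n m with hm | hm
  · obtain ⟨k, rfl⟩ := Nat.exists_eq_add_of_le hm
    exact ⟨q k, hinv k⟩
  · have h1 := hinv 0
    rw [Nat.add_zero] at h1
    obtain ⟨k, rfl⟩ := Nat.exists_eq_add_of_le hm.le
    have h2 : f - g * ∑ i ∈ Finset.range m, ((s i : ℕ) : R) * D.p ^ i =
        D.p ^ (m + k) * q 0 + g * ∑ i ∈ Finset.range k,
          ((s (m + i) : ℕ) : R) * D.p ^ (m + i) := by
      rw [Finset.sum_range_add] at h1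
      rw [← h1]
      ring
    rw [h2, pow_add, mul_assoc]
    refine dvd_add (Dvd.intro _ rfl) (Dvd.dvd.mul_left (Finset.dvd_sum fun i _ => ?_) _)
    rw [pow_add]
    exact ⟨((s (m + i) : ℕ) : R) * D.p ^ i, by ring⟩

/-- The complexity in terms of congruences. -/
theorem finComplexity_eq (D : Dat R d N) (φ : R → ℝ) {n : ℕ} (a : Fin n → Fin N) :
    finComplexity D.p φ a = sInf {x | ∃ f g : R, IsCoprime g D.p ∧ D.p ^ n ∣ f - D.ev a * g ∧
      x = max (φ f) (φ g)} := by
  unfold finComplexity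
  congr 1
  ext x
  constructor
  · rintro ⟨f, g, hg, ⟨s, hs, he⟩, hx⟩
    refine ⟨f, g, hg, ?_, hx⟩
    have := he n
    rw [D.ev_eq_range hs, mul_comm g] at this
    exact this
  · rintro ⟨f, g, hg, h, hx⟩
    exact ⟨f, g, hg, D.exists_expansion hg h, hx⟩

theorem logb_κ_pow (D : Dat R d N) (n : ℕ) : (d : ℝ) * Real.logb N (D.κ ^ n) = n := by
  have hN : (1 : ℝ) < N := by have := D.hN; exact_mod_cast (by omega : 1 < N)
  have hd : (d : ℝ) ≠ 0 := by exact_mod_cast D.hd.ne'
  unfold κ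
  rw [← Real.rpow_natCast, ← Real.rpow_mul (by positivity),
    Real.logb_rpow (by linarith) hN.ne']
  field_simp

/-- The constant of the counting bound. -/
noncomputable def C6 (D : Dat R d N) : ℝ := (9 * (1 + d * D.A)) ^ d

/-- Bounds for one sequence. -/
theorem complexity_bounds [IsDomain R] (D : Dat R d N) {φ : R → ℝ} {K : ℝ} (hK : 0 ≤ K)
    (h0 : φ 0 = 0) (hφ : ∀ u, u ≠ 0 → |φ u - d * Real.logb N (D.ρ u)| ≤ K) {n : ℕ}
    (a : Fin n → Fin N) : ∃ m : ℝ, 1 ≤ m ∧
      (∃ v : R × R, v ≠ 0 ∧ D.InL n (D.ev a) v ∧ D.ρ2 v = m) ∧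
      d * Real.logb N m - K ≤ finComplexity D.p φ a ∧
      finComplexity D.p φ a ≤ n - d * Real.logb N m +
        d * Real.logb N (48 * d * N * D.A ^ 2) + K := by
  have hN : (1 : ℝ) < N := by have := D.hN; exact_mod_cast (by omega : 1 < N)
  have hN0 : (0 : ℝ) < N := by linarith
  have hd : (0 : ℝ) < d := by exact_mod_cast D.hd
  have hA := D.one_le_A
  obtain ⟨m, hm1, ⟨v, hv, hvL, hvm⟩, hmin, -, u, huL, hu1, hu2⟩ := D.exists_good n (D.ev a)
  have hm0 : 0 < m := by linarith
  refine ⟨m, hm1, ⟨v, hv, hvL, hvm⟩, ?_⟩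
  have hnon : Nontrivial R := D.nontrivial
  -- general bounds
  have hlow : ∀ f g : R, g ≠ 0 → d * Real.logb N (D.ρ2 (f, g)) - K ≤ max (φ f) (φ g) := by
    intro f g hg
    have h1 := hφ g hg
    rw [abs_le] at h1
    by_cases hf : f = 0
    · have h2 : D.ρ2 (f, g) = D.ρ g := by
        unfold ρ2; rw [hf]; simp only; rw [D.ρ_zero]; exact max_eq_right (D.ρ_nonneg _)
      rw [h2]
      exact le_trans (by linarith) (le_max_right _ _)
    · have h2 := hφ f hf
      rw [abs_le] at h2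
      rcases le_total (D.ρ f) (D.ρ g) with h | h
      · have h3 : D.ρ2 (f, g) = D.ρ g := max_eq_right h
        rw [h3]
        exact le_trans (by linarith) (le_max_right _ _)
      · have h3 : D.ρ2 (f, g) = D.ρ f := max_eq_left h
        rw [h3]
        exact le_trans (by linarith) (le_max_left _ _)
  have hup : ∀ f g : R, g ≠ 0 → max (φ f) (φ g) ≤ d * Real.logb N (D.ρ2 (f, g)) + K := by
    intro f g hg
    have h1 := hφ g hg
    rw [abs_le] at h1
    have h4 := D.one_le_ρ hg
    have h5 : Real.logb N (D.ρ g) ≤ Real.logb N (D.ρ2 (f, g)) :=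
      Real.logb_le_logb_of_le hN (by linarith) (le_max_right _ _)
    have h7 : 0 ≤ Real.logb N (D.ρ g) := Real.logb_nonneg hN h4
    apply max_le
    · by_cases hf : f = 0
      · rw [hf, h0]
        have : 0 ≤ d * Real.logb N (D.ρ2 (0, g)) := by
          rw [hf] at h5
          exact mul_nonneg hd.le (by linarith)
        linarith
      · have h2 := hφ f hf
        rw [abs_le] at h2
        have h3 := D.one_le_ρ hf
        have h6 : Real.logb N (D.ρ f) ≤ Real.logb N (D.ρ2 (f, g)) :=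
          Real.logb_le_logb_of_le hN (by linarith) (le_max_left _ _)
        nlinarith
    · nlinarith
  have hcop : ∀ g : R, IsCoprime g D.p → g ≠ 0 ∨ IsUnit D.p := by
    intro g hg
    by_cases h : g = 0
    · right
      rw [h] at hg
      exact isCoprime_zero_left.1 hg
    · exact Or.inl h
  have hpu : ¬ IsUnit D.p := by
    intro h
    have h1 : D.p ∣ ((1 : ℤ) : R) := h.dvd
    have h2 := D.dvd_int h1
    have h3 := Int.le_of_dvd one_pos h2
    have := D.hN
    omega
  have hg0 : ∀ g : R, IsCoprime g D.p → g ≠ 0 := fun g hg => (hcop g hg).resolve_right hpu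
  have hucop : IsCoprime u.2 D.p := by
    obtain ⟨y, hy⟩ := hu1
    exact ⟨1, -y, by rw [one_mul, show u.2 = 1 + D.p * y by rw [← hy]; ring]; ring⟩
  rw [D.finComplexity_eq]
  have hne : (max (φ u.1) (φ u.2)) ∈ {x | ∃ f g : R, IsCoprime g D.p ∧
      D.p ^ n ∣ f - D.ev a * g ∧ x = max (φ f) (φ g)} := ⟨u.1, u.2, hucop, huL, rfl⟩
  have hlb : ∀ x ∈ {x | ∃ f g : R, IsCoprime g D.p ∧ D.p ^ n ∣ f - D.ev a * g ∧
      x = max (φ f) (φ g)}, d * Real.logb N m - K ≤ x := by
    rintro x ⟨f, g, hg, hfg, rfl⟩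
    have h1 := hmin (f, g) (fun h => hg0 g hg (congrArg Prod.snd h)) hfg
    have h2 : Real.logb N m ≤ Real.logb N (D.ρ2 (f, g)) := Real.logb_le_logb_of_le hN hm0 h1
    have h3 := hlow f g (hg0 g hg)
    nlinarith
  constructor
  · exact le_csInf ⟨_, hne⟩ hlb
  · refine (csInf_le ⟨_, hlb⟩ hne).trans ((hup _ _ (hg0 _ hucop)).trans ?_)
    have hu0 : u ≠ 0 := fun h => hg0 _ hucop (by rw [h]; rfl)
    have h1 : 1 ≤ D.ρ2 u := D.one_le_ρ2 hu0
    have h2 : Real.logb N (D.ρ2 u) ≤ Real.logb N (48 * d * N * D.A ^ 2 * D.κ ^ n / m) :=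
      Real.logb_le_logb_of_le hN (by linarith) hu2
    have hκ := pow_pos D.κ_pos n
    have h3 : Real.logb N (48 * d * N * D.A ^ 2 * D.κ ^ n / m) =
        Real.logb N (48 * d * N * D.A ^ 2) + Real.logb N (D.κ ^ n) - Real.logb N m := by
      rw [Real.logb_div (by positivity) hm0.ne', Real.logb_mul (by positivity) hκ.ne']
    rw [h3] at h2
    have h4 := D.logb_κ_pow n
    have h5 : (u.1, u.2) = u := rfl
    rw [h5]
    nlinarith

/-- The number of sequences whose lattice has a short vector. -/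
theorem card_le_level [IsDomain R] (D : Dat R d N) {n : ℕ} (m : (Fin n → Fin N) → ℝ)
    (hm1 : ∀ a, 1 ≤ m a)
    (hm : ∀ a, ∃ v : R × R, v ≠ 0 ∧ D.InL n (D.ev a) v ∧ D.ρ2 v = m a) (hn : 0 < n) (k : ℕ) :
    (((Finset.univ.filter fun a => d * Real.logb N (m a) ≤ (n : ℝ) / 2 - k).card : ℕ) : ℝ) ≤
      D.C6 * (N : ℝ) ^ n * (1 / 4) ^ k := by
  classical
  have hN : (1 : ℝ) < N := by have := D.hN; exact_mod_cast (by omega : 1 < N)
  have hN0 : (0 : ℝ) < N := by linarith
  have hd : (0 : ℝ) < d := by exact_mod_cast D.hd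
  have hA := D.one_le_A
  have hC6 : 0 ≤ D.C6 := by unfold C6; positivity
  rcases lt_or_ge ((n : ℝ) / 2 - k) 0 with h | h
  · have : (Finset.univ.filter fun a => d * Real.logb N (m a) ≤ (n : ℝ) / 2 - k) = ∅ := by
      rw [Finset.filter_eq_empty_iff]
      intro a _ ha
      have : 0 ≤ d * Real.logb N (m a) := mul_nonneg hd.le (Real.logb_nonneg hN (hm1 a))
      linarith
    rw [this, Finset.card_empty, Nat.cast_zero]
    positivity
  · set X : ℝ := (N : ℝ) ^ (((n : ℝ) / 2 - k) / d) with hX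
    have hX1 : 1 ≤ X := Real.one_le_rpow hN.le (div_nonneg h hd.le)
    have hXn : X < D.κ ^ n := by
      rw [hX, κ, ← Real.rpow_natCast, ← Real.rpow_mul hN0.le]
      apply Real.rpow_lt_rpow_of_exponent_lt hN
      rw [one_div, inv_mul_eq_div]
      apply div_lt_div_of_pos_right _ hd
      have : (0 : ℝ) < n := by exact_mod_cast hn
      have hk : (0 : ℝ) ≤ k := Nat.cast_nonneg k
      linarith
    have h1 := D.card_short n (by linarith : (0 : ℝ) ≤ X) hXn
    have h2 : (Finset.univ.filter fun a => d * Real.logb N (m a) ≤ (n : ℝ) / 2 - k).card ≤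
        Set.ncard {a : Fin n → Fin N | ∃ f g, (f ≠ 0 ∨ g ≠ 0) ∧ D.ρ f ≤ X ∧
          D.ρ g ≤ X ∧ D.p ^ n ∣ f - D.ev a * g} := by
      rw [← Set.ncard_coe_finset]
      refine Set.ncard_le_ncard ?_ (Set.toFinite _)
      intro a ha
      rw [Finset.mem_coe, Finset.mem_filter] at ha
      obtain ⟨v, hv0, hvL, hvm⟩ := hm a
      have hle : D.ρ2 v ≤ X := by
        rw [hvm, hX]
        have h3 : Real.logb N (m a) ≤ ((n : ℝ) / 2 - k) / d := by
          rw [le_div_iff₀' hd]
          exact ha.2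
        have h4 := hm1 a
        rw [Real.logb_le_iff_le_rpow hN (by linarith)] at h3
        exact h3
      refine ⟨v.1, v.2, ?_, (le_max_left _ _).trans hle, (le_max_right _ _).trans hle, hvL⟩
      by_contra hcon
      push Not at hcon
      exact hv0 (Prod.ext hcon.1 hcon.2)
    have hdA : 0 ≤ d * D.A := by positivity
    have h3 := D.card_ball_le hX1
    have h4 := D.card_ball_le (X := X + d * D.A * X) (by nlinarith)
    have h5 : X ^ (2 * d) = (N : ℝ) ^ n * (1 / (N : ℝ) ^ 2) ^ k := by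
      rw [hX, ← Real.rpow_natCast, ← Real.rpow_mul hN0.le]
      have e : ((n : ℝ) / 2 - k) / d * ((2 * d : ℕ) : ℝ) = (n : ℝ) - ((2 * k : ℕ) : ℝ) := by
        push_cast
        field_simp
      rw [e, Real.rpow_sub hN0, Real.rpow_natCast, Real.rpow_natCast, div_pow, one_pow, ← pow_mul]
      ring
    calc (((Finset.univ.filter fun a => d * Real.logb N (m a) ≤ (n : ℝ) / 2 - k).card : ℕ) : ℝ)
        ≤ (((D.ball X).card * (D.ball (X + d * D.A * X)).card : ℕ) : ℝ) := by
          exact_mod_cast h2.trans h1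
      _ = ((D.ball X).card : ℝ) * ((D.ball (X + d * D.A * X)).card : ℝ) := by push_cast; ring
      _ ≤ (3 * X) ^ d * (3 * (X + d * D.A * X)) ^ d := by gcongr
      _ = D.C6 * X ^ (2 * d) := by
        unfold C6
        rw [← mul_pow, pow_mul, ← mul_pow]
        congr 1
        ring
      _ = D.C6 * (N : ℝ) ^ n * (1 / (N : ℝ) ^ 2) ^ k := by rw [h5]; ring
      _ ≤ D.C6 * (N : ℝ) ^ n * (1 / 4) ^ k := by
        have h6 : (4 : ℝ) ≤ (N : ℝ) ^ 2 := by
          have : (2 : ℝ) ≤ N := by exact_mod_cast D.hN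
          nlinarith
        have h7 : 1 / (N : ℝ) ^ 2 ≤ 1 / 4 := one_div_le_one_div_of_le (by norm_num) h6
        gcongr

/-- The sum of the logarithms of the lengths of the shortest vectors. -/
theorem sum_log_lower [IsDomain R] (D : Dat R d N) {n : ℕ} (m : (Fin n → Fin N) → ℝ)
    (hm1 : ∀ a, 1 ≤ m a)
    (hm : ∀ a, ∃ v : R × R, v ≠ 0 ∧ D.InL n (D.ev a) v ∧ D.ρ2 v = m a) :
    (N : ℝ) ^ n * ((n : ℝ) / 2 - 4 / 3 * D.C6) ≤ ∑ a, d * Real.logb N (m a) := by
  classical
  have hN : (1 : ℝ) < N := by have := D.hN; exact_mod_cast (by omega : 1 < N)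
  have hN0 : (0 : ℝ) < N := by linarith
  have hd : (0 : ℝ) < d := by exact_mod_cast D.hd
  have hA := D.one_le_A
  have hC6 : 0 ≤ D.C6 := by unfold C6; positivity
  have hpos : ∀ a, 0 ≤ d * Real.logb N (m a) := fun a =>
    mul_nonneg hd.le (Real.logb_nonneg hN (hm1 a))
  rcases Nat.eq_zero_or_pos n with hn | hn
  · subst hn
    have h1 : 0 ≤ ∑ a, d * Real.logb N (m a) := Finset.sum_nonneg fun a _ => hpos a
    simp only [pow_zero, Nat.cast_zero, zero_div, zero_sub, one_mul]
    linarith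
  · have hone : ∀ x : ℝ, x ≤ (n : ℝ) / 2 → x ≤ ∑ k ∈ Finset.range (n + 1),
        if (k : ℝ) ≤ x then (1 : ℝ) else 0 := by
      intro x hx
      rw [Finset.sum_ite, Finset.sum_const_zero, add_zero, Finset.sum_const, nsmul_eq_mul, mul_one]
      rcases lt_or_ge x 0 with h | h
      · exact h.le.trans (Nat.cast_nonneg _)
      · have h1 : Finset.range (⌊x⌋₊ + 1) ⊆
            (Finset.range (n + 1)).filter (fun k : ℕ => (k : ℝ) ≤ x) := by
          intro k hk
          rw [Finset.mem_range] at hk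
          have h2 : (k : ℝ) ≤ x := (Nat.le_floor_iff h).1 (by omega)
          refine Finset.mem_filter.2 ⟨Finset.mem_range.2 ?_, h2⟩
          have h3 : (k : ℝ) ≤ n := by
            have : (0 : ℝ) ≤ n := Nat.cast_nonneg n
            linarith
          have h4 : k ≤ n := by exact_mod_cast h3
          omega
        have h2 := Finset.card_le_card h1
        rw [Finset.card_range] at h2
        have h3 := Nat.lt_floor_add_one x
        have h4 : ((⌊x⌋₊ + 1 : ℕ) : ℝ) ≤
            (((Finset.range (n + 1)).filter (fun k : ℕ => (k : ℝ) ≤ x)).card : ℝ) := by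
          exact_mod_cast h2
        push_cast at h4
        linarith
    have h1 : ∑ a, ((n : ℝ) / 2 - d * Real.logb N (m a)) ≤
        ∑ k ∈ Finset.range (n + 1), D.C6 * (N : ℝ) ^ n * (1 / 4) ^ k := by
      calc ∑ a, ((n : ℝ) / 2 - d * Real.logb N (m a)) ≤
          ∑ a, ∑ k ∈ Finset.range (n + 1),
            if (k : ℝ) ≤ (n : ℝ) / 2 - d * Real.logb N (m a) then (1 : ℝ) else 0 :=
            Finset.sum_le_sum fun a _ => hone _ (by linarith [hpos a])
        _ = ∑ k ∈ Finset.range (n + 1), ∑ a,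
            if (k : ℝ) ≤ (n : ℝ) / 2 - d * Real.logb N (m a) then (1 : ℝ) else 0 :=
            Finset.sum_comm
        _ ≤ _ := by
          refine Finset.sum_le_sum fun k _ => ?_
          rw [Finset.sum_ite, Finset.sum_const_zero, add_zero, Finset.sum_const, nsmul_eq_mul,
            mul_one]
          have h2 := D.card_le_level m hm1 hm hn k
          refine le_trans (le_of_eq ?_) h2
          congr 3
          ext a
          constructor <;> intro h <;> linarith
    have h2 : ∑ k ∈ Finset.range (n + 1), D.C6 * (N : ℝ) ^ n * (1 / 4 : ℝ) ^ k ≤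
        D.C6 * (N : ℝ) ^ n * (4 / 3) := by
      rw [← Finset.mul_sum]
      have h3 : ∑ k ∈ Finset.range (n + 1), (1 / 4 : ℝ) ^ k ≤ 4 / 3 := by
        rw [geom_sum_eq (by norm_num)]
        have : (0 : ℝ) < (1 / 4) ^ (n + 1) := by positivity
        rw [div_le_iff_of_neg (by norm_num)]
        linarith
      gcongr
    have h3 : ∑ _a : Fin n → Fin N, (n : ℝ) / 2 = (N : ℝ) ^ n * ((n : ℝ) / 2) := by
      rw [Finset.sum_const, Finset.card_univ, Fintype.card_fun, Fintype.card_fin, Fintype.card_fin,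
        nsmul_eq_mul]
      push_cast
      ring
    rw [Finset.sum_sub_distrib, h3] at h1
    nlinarith

/-- **The average complexity.** -/
theorem average [IsDomain R] (D : Dat R d N) {φ : R → ℝ} {K : ℝ} (hK : 0 ≤ K)
    (h0 : φ 0 = 0) (hφ : ∀ u, u ≠ 0 → |φ u - d * Real.logb N (D.ρ u)| ≤ K) (n : ℕ) :
    (n : ℝ) / 2 - 4 / 3 * D.C6 - K ≤ avgComplexity N D.p φ n ∧
    avgComplexity N D.p φ n ≤ (n : ℝ) / 2 + 4 / 3 * D.C6 +
      d * Real.logb N (48 * d * N * D.A ^ 2) + K := by
  have hN : (1 : ℝ) < N := by have := D.hN; exact_mod_cast (by omega : 1 < N)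
  have hNn : (0 : ℝ) < (N : ℝ) ^ n := by positivity
  choose m hm1 hm hlow hup using fun a : Fin n → Fin N => D.complexity_bounds hK h0 hφ a
  have hS := D.sum_log_lower m hm1 hm
  have hcard : ∀ c : ℝ, ∑ _a : Fin n → Fin N, c = (N : ℝ) ^ n * c := by
    intro c
    rw [Finset.sum_const, Finset.card_univ, Fintype.card_fun, Fintype.card_fin, Fintype.card_fin,
      nsmul_eq_mul]
    push_cast
    ring
  unfold avgComplexity
  constructor
  · rw [le_div_iff₀ hNn]
    have h1 := Finset.sum_le_sum fun a (_ : a ∈ (Finset.univ : Finset (Fin n → Fin N))) => hlow a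
    rw [Finset.sum_sub_distrib, hcard] at h1
    linarith
  · rw [div_le_iff₀ hNn]
    have h1 := Finset.sum_le_sum fun a (_ : a ∈ (Finset.univ : Finset (Fin n → Fin N))) => hup a
    rw [Finset.sum_add_distrib, Finset.sum_add_distrib, Finset.sum_sub_distrib, hcard, hcard,
      hcard] at h1
    linarith

end Dat

end Pool.Agent.H78R3.PiAdic
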