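import Mathlib

/-!
# The ring `ℤ[π]` with `π^d = ± N`: size of elements

`R` is a commutative ring with the `ℤ`-basis `1, π, …, π^(d-1)` and `π^d = ± N`.
-/

namespace Pool.Agent.H78R3.PiAdic

open Finset Module

/-- A `ℤ`-basis `1, π, …, π^(d-1)` of the ring `R` with `π^d = ε N`, `ε = ± 1`. -/
structure Dat (R : Type*) [CommRing R] (d N : ℕ) where
  b : Basis (Fin d) ℤ R
  p : R
  hb : ∀ i, b i = p ^ (i : ℕ)
  ε : ℤ
  hε : ε = 1 ∨ ε = -1
  hp : p ^ d = ((ε * (N : ℤ) : ℤ) : R)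
  hN : 2 ≤ N
  hd : 0 < d

variable {R : Type*} [CommRing R] {d N : ℕ}

namespace Dat

/-- The real number `N^(1/d)`. -/
noncomputable def κ (_ : Dat R d N) : ℝ := (N : ℝ) ^ ((1 : ℝ) / d)

theorem κ_pow (D : Dat R d N) : D.κ ^ d = N := by
  unfold κ
  rw [← Real.rpow_natCast, ← Real.rpow_mul (by positivity)]
  have : (d : ℝ) ≠ 0 := by exact_mod_cast D.hd.ne'
  rw [one_div, inv_mul_cancel₀ this, Real.rpow_one]

theorem one_lt_κ (D : Dat R d N) : 1 < D.κ := by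
  unfold κ
  apply Real.one_lt_rpow
  · exact_mod_cast D.hN
  · have : (0 : ℝ) < d := by exact_mod_cast D.hd
    positivity

theorem κ_pos (D : Dat R d N) : 0 < D.κ := lt_trans zero_lt_one D.one_lt_κ

theorem one_le_κ_pow (D : Dat R d N) (i : ℕ) : 1 ≤ D.κ ^ i := one_le_pow₀ D.one_lt_κ.le

/-- The weighted coordinates. -/
noncomputable def emb (D : Dat R d N) : R →+ (Fin d → ℝ) where
  toFun u := fun i => (D.b.repr u i : ℝ) * D.κ ^ (i : ℕ)
  map_zero' := by ext i; simp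
  map_add' u v := by ext i; simp [add_mul]

theorem emb_apply (D : Dat R d N) (u : R) (i : Fin d) :
    D.emb u i = (D.b.repr u i : ℝ) * D.κ ^ (i : ℕ) := rfl

/-- The size. -/
noncomputable def ρ (D : Dat R d N) (u : R) : ℝ := ‖D.emb u‖

theorem ρ_nonneg (D : Dat R d N) (u : R) : 0 ≤ D.ρ u := norm_nonneg _

theorem ρ_zero (D : Dat R d N) : D.ρ 0 = 0 := by simp [ρ]

theorem ρ_add_le (D : Dat R d N) (u v : R) : D.ρ (u + v) ≤ D.ρ u + D.ρ v := by
  unfold ρ; rw [map_add]; exact norm_add_le _ _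

theorem ρ_neg (D : Dat R d N) (u : R) : D.ρ (-u) = D.ρ u := by
  unfold ρ; rw [map_neg, norm_neg]

theorem ρ_sub_le (D : Dat R d N) (u v : R) : D.ρ (u - v) ≤ D.ρ u + D.ρ v := by
  rw [sub_eq_add_neg, ← D.ρ_neg v]; exact D.ρ_add_le _ _

theorem emb_int_mul (D : Dat R d N) (c : ℤ) (u : R) : D.emb ((c : R) * u) = (c : ℝ) • D.emb u := by
  ext i
  rw [← zsmul_eq_mul, map_zsmul]
  simp

theorem ρ_int_mul (D : Dat R d N) (c : ℤ) (u : R) : D.ρ ((c : R) * u) = |(c : ℝ)| * D.ρ u := by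
  unfold ρ; rw [D.emb_int_mul, norm_smul, Real.norm_eq_abs]

theorem coord_le (D : Dat R d N) (u : R) (i : Fin d) :
    |(D.b.repr u i : ℝ)| * D.κ ^ (i : ℕ) ≤ D.ρ u := by
  have h := norm_le_pi_norm (D.emb u) i
  rw [emb_apply, Real.norm_eq_abs, abs_mul, abs_of_pos (pow_pos D.κ_pos _)] at h
  exact h

theorem ρ_le_iff (D : Dat R d N) (u : R) {r : ℝ} (hr : 0 ≤ r) :
    D.ρ u ≤ r ↔ ∀ i, |(D.b.repr u i : ℝ)| * D.κ ^ (i : ℕ) ≤ r := by
  unfold ρ
  rw [pi_norm_le_iff_of_nonneg hr]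
  refine forall_congr' fun i => ?_
  rw [emb_apply, Real.norm_eq_abs, abs_mul, abs_of_pos (pow_pos D.κ_pos _)]

theorem one_le_ρ (D : Dat R d N) {u : R} (hu : u ≠ 0) : 1 ≤ D.ρ u := by
  obtain ⟨i, hi⟩ : ∃ i, D.b.repr u i ≠ 0 := by
    by_contra h
    push Not at h
    exact hu (D.b.repr.map_eq_zero_iff.1 (Finsupp.ext h))
  refine le_trans ?_ (D.coord_le u i)
  have h1 : (1 : ℝ) ≤ |(D.b.repr u i : ℝ)| := by
    rw [← Int.cast_abs]
    exact_mod_cast Int.one_le_abs hi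
  have h2 := D.one_le_κ_pow (i : ℕ)
  nlinarith

theorem repr_pi_mul {e : ℕ} (D : Dat R (e + 1) N) (u : R) :
    D.b.repr (D.p * u) 0 = D.ε * N * D.b.repr u (Fin.last e) ∧
    ∀ i : Fin e, D.b.repr (D.p * u) i.succ = D.b.repr u i.castSucc := by
  have h1 : D.p * u = ∑ i : Fin e, D.b.repr u i.castSucc • D.b i.succ +
      (D.b.repr u (Fin.last e) * (D.ε * N)) • D.b 0 := by
    conv_lhs => rw [← D.b.sum_repr u]
    rw [Fin.sum_univ_castSucc, mul_add, Finset.mul_sum]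
    congr 1
    · refine Finset.sum_congr rfl fun i _ => ?_
      rw [mul_smul_comm, D.hb, D.hb, ← pow_succ']
      rfl
    · rw [mul_smul_comm, D.hb, ← pow_succ', Fin.val_last, D.hp, D.hb 0]
      simp only [Fin.val_zero, pow_zero, zsmul_eq_mul]
      push_cast
      ring
  constructor
  · rw [h1]
    simp only [map_add, map_sum, map_smul, Basis.repr_self, Finsupp.add_apply,
      Finsupp.finsetSum_apply, Finsupp.smul_apply, Finsupp.single_apply, smul_eq_mul]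
    simp [Fin.succ_ne_zero]
    ring
  · intro i
    rw [h1]
    simp only [map_add, map_sum, map_smul, Basis.repr_self, Finsupp.add_apply,
      Finsupp.finsetSum_apply, Finsupp.smul_apply, Finsupp.single_apply, smul_eq_mul]
    simp [(Fin.succ_ne_zero i).symm]

/-- Multiplication by `π` multiplies the size by `N^(1/d)`. -/
theorem ρ_pi_mul (D : Dat R d N) (u : R) : D.ρ (D.p * u) = D.κ * D.ρ u := by
  cases d with
  | zero => exact absurd D.hd (lt_irrefl 0)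
  | succ e =>
    obtain ⟨h0, h1⟩ := D.repr_pi_mul u
    have hκ := D.κ_pos
    have hκe : D.κ * D.κ ^ e = N := by rw [← pow_succ', D.κ_pow]
    have hεN : |((D.ε * N * D.b.repr u (Fin.last e) : ℤ) : ℝ)| =
        N * |(D.b.repr u (Fin.last e) : ℝ)| := by
      push_cast
      rw [abs_mul, abs_mul, Nat.abs_cast]
      rcases D.hε with h | h <;> rw [h] <;> simp
    apply le_antisymm
    · rw [D.ρ_le_iff _ (mul_nonneg hκ.le (D.ρ_nonneg u))]
      intro j
      refine Fin.cases ?_ (fun i => ?_) j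
      · rw [h0, hεN]
        have := D.coord_le u (Fin.last e)
        rw [Fin.val_last] at this
        simp only [Fin.val_zero, pow_zero, mul_one]
        calc (N : ℝ) * |(D.b.repr u (Fin.last e) : ℝ)| =
            D.κ * (|(D.b.repr u (Fin.last e) : ℝ)| * D.κ ^ e) := by rw [← hκe]; ring
          _ ≤ D.κ * D.ρ u := by gcongr
      · rw [h1 i, Fin.val_succ, pow_succ']
        have := D.coord_le u i.castSucc
        rw [Fin.val_castSucc] at this
        calc |(D.b.repr u i.castSucc : ℝ)| * (D.κ * D.κ ^ (i : ℕ)) =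
            D.κ * (|(D.b.repr u i.castSucc : ℝ)| * D.κ ^ (i : ℕ)) := by ring
          _ ≤ D.κ * D.ρ u := by gcongr
    · rw [← le_div_iff₀' hκ, D.ρ_le_iff _ (div_nonneg (D.ρ_nonneg _) hκ.le)]
      intro j
      rw [le_div_iff₀' hκ]
      refine Fin.lastCases ?_ (fun i => ?_) j
      · have := D.coord_le (D.p * u) 0
        rw [h0, hεN] at this
        simp only [Fin.val_zero, pow_zero, mul_one] at this
        rw [Fin.val_last]
        calc D.κ * (|(D.b.repr u (Fin.last e) : ℝ)| * D.κ ^ e) =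
            N * |(D.b.repr u (Fin.last e) : ℝ)| := by rw [← hκe]; ring
          _ ≤ _ := this
      · have := D.coord_le (D.p * u) i.succ
        rw [h1 i, Fin.val_succ, pow_succ'] at this
        rw [Fin.val_castSucc]
        calc D.κ * (|(D.b.repr u i.castSucc : ℝ)| * D.κ ^ (i : ℕ)) =
            |(D.b.repr u i.castSucc : ℝ)| * (D.κ * D.κ ^ (i : ℕ)) := by ring
          _ ≤ _ := this

theorem ρ_pi_pow_mul (D : Dat R d N) (k : ℕ) (u : R) : D.ρ (D.p ^ k * u) = D.κ ^ k * D.ρ u := by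
  induction k with
  | zero => simp
  | succ k ih => rw [pow_succ', mul_assoc, D.ρ_pi_mul, ih, pow_succ']; ring

/-- Expansion in powers of `π`. -/
theorem sum_repr (D : Dat R d N) (u : R) :
    u = ∑ i : Fin d, ((D.b.repr u i : ℤ) : R) * D.p ^ (i : ℕ) := by
  conv_lhs => rw [← D.b.sum_repr u]
  exact Finset.sum_congr rfl fun i _ => by rw [D.hb, zsmul_eq_mul]

theorem ρ_sum_le (D : Dat R d N) {ι : Type*} (s : Finset ι) (f : ι → R) :
    D.ρ (∑ i ∈ s, f i) ≤ ∑ i ∈ s, D.ρ (f i) := by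
  unfold ρ
  rw [map_sum]
  exact norm_sum_le _ _

/-- The constant `N^((d-1)/d)`. -/
noncomputable def A (D : Dat R d N) : ℝ := D.κ ^ (d - 1)

theorem one_le_A (D : Dat R d N) : 1 ≤ D.A := D.one_le_κ_pow _

theorem κ_pow_le_A (D : Dat R d N) (i : Fin d) : D.κ ^ (i : ℕ) ≤ D.A :=
  pow_le_pow_right₀ D.one_lt_κ.le (by omega)

theorem A_mul_κ (D : Dat R d N) : D.A * D.κ = N := by
  unfold A
  rw [← pow_succ, Nat.sub_add_cancel D.hd, D.κ_pow]

/-- If `c u = ∑ X_i π^i v` then an integral combination of the `π^i v` is close to `u`. -/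
theorem reduce (D : Dat R d N) (c : ℤ) (hc : c ≠ 0) (X : R) :
    ∃ q X' : R, X = (c : R) * q + X' ∧ ∀ v : R, D.ρ (X' * v) ≤ |(c : ℝ)| * (d * D.A * D.ρ v) := by
  refine ⟨∑ i : Fin d, ((D.b.repr X i / c : ℤ) : R) * D.p ^ (i : ℕ),
    ∑ i : Fin d, ((D.b.repr X i % c : ℤ) : R) * D.p ^ (i : ℕ), ?_, fun v => ?_⟩
  · rw [Finset.mul_sum, ← Finset.sum_add_distrib]
    conv_lhs => rw [D.sum_repr X]
    refine Finset.sum_congr rfl fun i _ => ?_
    have h := Int.mul_ediv_add_emod (D.b.repr X i) c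
    rw [← mul_assoc, ← add_mul]
    congr 1
    rw [← Int.cast_mul, ← Int.cast_add]
    exact congrArg (fun z : ℤ => (z : R)) h.symm
  · rw [Finset.sum_mul]
    refine (D.ρ_sum_le _ _).trans ?_
    have h1 : ∀ i : Fin d, D.ρ (((D.b.repr X i % c : ℤ) : R) * D.p ^ (i : ℕ) * v) ≤
        |(c : ℝ)| * (D.A * D.ρ v) := by
      intro i
      rw [mul_assoc, D.ρ_int_mul, D.ρ_pi_pow_mul]
      have h2 : |((D.b.repr X i % c : ℤ) : ℝ)| ≤ |(c : ℝ)| := by
        rw [← Int.cast_abs, ← Int.cast_abs]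
        have h3 := Int.emod_nonneg (D.b.repr X i) hc
        have h4 := Int.emod_lt_abs (D.b.repr X i) hc
        rw [abs_of_nonneg h3]
        exact_mod_cast h4.le
      have h5 := D.κ_pow_le_A i
      have h6 := D.ρ_nonneg v
      have h7 := pow_nonneg D.κ_pos.le (i : ℕ)
      gcongr
    calc ∑ i : Fin d, D.ρ (((D.b.repr X i % c : ℤ) : R) * D.p ^ (i : ℕ) * v) ≤
        ∑ _i : Fin d, |(c : ℝ)| * (D.A * D.ρ v) := Finset.sum_le_sum fun i _ => h1 i
      _ = |(c : ℝ)| * (d * D.A * D.ρ v) := by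
        rw [Finset.sum_const, Finset.card_univ, Fintype.card_fin, nsmul_eq_mul]
        ring

theorem charZero (D : Dat R d N) {c : ℤ} (h : (c : R) = 0) : c = 0 := by
  have h1 := D.hb ⟨0, D.hd⟩
  simp only [pow_zero] at h1
  have h2 : c • D.b ⟨0, D.hd⟩ = 0 := by rw [h1, zsmul_eq_mul, h, zero_mul]
  have h3 : D.b.repr (c • D.b ⟨0, D.hd⟩) ⟨0, D.hd⟩ = 0 := by rw [h2]; simp
  rw [map_smul, Basis.repr_self] at h3
  simpa using h3

theorem nontrivial (D : Dat R d N) : Nontrivial R := by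
  refine ⟨⟨0, 1, fun h => ?_⟩⟩
  have : ((1 : ℤ) : R) = 0 := by rw [Int.cast_one, ← h]
  exact one_ne_zero (D.charZero this)

theorem p_ne_zero (D : Dat R d N) : D.p ≠ 0 := by
  intro h
  have h1 := D.hp
  rw [h, zero_pow D.hd.ne'] at h1
  have h2 := D.charZero h1.symm
  have h3 := D.hN
  rcases D.hε with h4 | h4 <;> rw [h4] at h2 <;> omega

/-- In a domain every nonzero element divides a nonzero integer. -/
theorem exists_mul_eq_int [IsDomain R] (D : Dat R d N) {u : R} (hu : u ≠ 0) :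
    ∃ (c : ℤ) (s : R), c ≠ 0 ∧ s * u = (c : R) := by
  have : Module.Finite ℤ R := Module.Finite.of_basis D.b
  have h1 : IsAlgebraic ℤ u := by
    have : Nontrivial R := D.nontrivial
    exact (Algebra.IsIntegral.isIntegral u).isAlgebraic
  obtain ⟨c, hc, s, hs⟩ := h1.exists_nonzero_dvd (mem_nonZeroDivisors_of_ne_zero hu)
  refine ⟨c, s, hc, ?_⟩
  rw [mul_comm, ← hs]
  simp

/-- Reduction modulo a nonzero element. -/
theorem reduce_mod [IsDomain R] (D : Dat R d N) {g : R} (hg : g ≠ 0) (r : R) :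
    ∃ q : R, D.ρ (r - q * g) ≤ d * D.A * D.ρ g := by
  obtain ⟨c, s, hc, hs⟩ := D.exists_mul_eq_int hg
  obtain ⟨q, X', h1, h2⟩ := D.reduce c hc (s * r)
  refine ⟨q, ?_⟩
  have h3 : (c : R) * (r - q * g) = X' * g := by
    rw [mul_sub, ← hs, show s * g * r = (s * r) * g by ring, h1, hs]
    ring
  have h4 := h2 g
  rw [← h3, D.ρ_int_mul] at h4
  have h5 : 0 < |(c : ℝ)| := abs_pos.2 (by exact_mod_cast hc)
  exact le_of_mul_le_mul_left h4 h5

/-! ### Counting -/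

/-- The finite set of the elements of size at most `X`. -/
noncomputable def ball (D : Dat R d N) (X : ℝ) : Finset R :=
  (Fintype.piFinset fun i : Fin d => Finset.Icc (-⌊X / D.κ ^ (i : ℕ)⌋) ⌊X / D.κ ^ (i : ℕ)⌋).map
    D.b.equivFun.symm.toEquiv.toEmbedding

theorem mem_ball (D : Dat R d N) {X : ℝ} (hX : 0 ≤ X) {u : R} : u ∈ D.ball X ↔ D.ρ u ≤ X := by
  unfold ball
  rw [Finset.mem_map_equiv, Fintype.mem_piFinset, D.ρ_le_iff u hX]
  refine forall_congr' fun i => ?_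
  have h1 : 0 < D.κ ^ (i : ℕ) := pow_pos D.κ_pos _
  rw [← le_div_iff₀ h1]
  have h2 : (D.b.equivFun.symm.toEquiv.symm u) i = D.b.repr u i := rfl
  rw [h2, Finset.mem_Icc, ← abs_le, ← Int.cast_abs, ← Int.le_floor]

theorem card_ball (D : Dat R d N) {X : ℝ} (hX : 0 ≤ X) : ((D.ball X).card : ℝ) =
    ∏ i : Fin d, (2 * (⌊X / D.κ ^ (i : ℕ)⌋ : ℝ) + 1) := by
  unfold ball
  rw [Finset.card_map, Fintype.card_piFinset, Nat.cast_prod]
  refine Finset.prod_congr rfl fun i _ => ?_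
  have h1 : 0 < D.κ ^ (i : ℕ) := pow_pos D.κ_pos _
  have h2 : 0 ≤ ⌊X / D.κ ^ (i : ℕ)⌋ := Int.floor_nonneg.2 (by positivity)
  rw [Int.card_Icc]
  have h3 : (⌊X / D.κ ^ (i : ℕ)⌋ + 1 - -⌊X / D.κ ^ (i : ℕ)⌋) = 2 * ⌊X / D.κ ^ (i : ℕ)⌋ + 1 := by ring
  rw [h3]
  have h4 : ((2 * ⌊X / D.κ ^ (i : ℕ)⌋ + 1).toNat : ℤ) = 2 * ⌊X / D.κ ^ (i : ℕ)⌋ + 1 :=
    Int.toNat_of_nonneg (by omega)
  exact_mod_cast congrArg (fun z : ℤ => (z : ℝ)) h4

theorem card_ball_le (D : Dat R d N) {X : ℝ} (hX : 1 ≤ X) : ((D.ball X).card : ℝ) ≤ (3 * X) ^ d := by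
  rw [D.card_ball (by linarith)]
  calc ∏ i : Fin d, (2 * (⌊X / D.κ ^ (i : ℕ)⌋ : ℝ) + 1) ≤ ∏ _i : Fin d, 3 * X := by
        refine Finset.prod_le_prod (fun i _ => ?_) (fun i _ => ?_)
        · have h1 : 0 < D.κ ^ (i : ℕ) := pow_pos D.κ_pos _
          have h2 : (0 : ℤ) ≤ ⌊X / D.κ ^ (i : ℕ)⌋ := Int.floor_nonneg.2 (by positivity)
          have h3 : (0 : ℝ) ≤ (⌊X / D.κ ^ (i : ℕ)⌋ : ℝ) := by exact_mod_cast h2
          linarith
        · have h1 := Int.floor_le (X / D.κ ^ (i : ℕ))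
          have h2 : X / D.κ ^ (i : ℕ) ≤ X := div_le_self (by linarith) (D.one_le_κ_pow _)
          linarith
    _ = (3 * X) ^ d := by simp

theorem le_card_ball (D : Dat R d N) {X : ℝ} (hX : 0 ≤ X) : (X / D.A) ^ d ≤ (D.ball X).card := by
  rw [D.card_ball hX]
  calc (X / D.A) ^ d = ∏ _i : Fin d, X / D.A := by
        rw [Finset.prod_const, Finset.card_univ, Fintype.card_fin]
    _ ≤ ∏ i : Fin d, (2 * (⌊X / D.κ ^ (i : ℕ)⌋ : ℝ) + 1) := by
        refine Finset.prod_le_prod (fun i _ => div_nonneg hX (by linarith [D.one_le_A]))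
          (fun i _ => ?_)
        have h1 : 0 < D.κ ^ (i : ℕ) := pow_pos D.κ_pos _
        have h2 : X / D.A ≤ X / D.κ ^ (i : ℕ) := div_le_div_of_nonneg_left hX h1 (D.κ_pow_le_A i)
        have h3 := Int.lt_floor_add_one (X / D.κ ^ (i : ℕ))
        have h4 : (0 : ℤ) ≤ ⌊X / D.κ ^ (i : ℕ)⌋ := Int.floor_nonneg.2 (by positivity)
        have h5 : (0 : ℝ) ≤ (⌊X / D.κ ^ (i : ℕ)⌋ : ℝ) := by exact_mod_cast h4
        linarith

end Dat

end Pool.Agent.H78R3.PiAdic
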