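import Pool.Agent.H78R3.Pi.Basic

/-!
# The ring `ℤ[π]` with `π^d = ± N`: digits and counting
-/

namespace Pool.Agent.H78R3.PiAdic

open Finset Module Pointwise

/-- The preimage of `B` under an endomorphism `μ` of a finite abelian group has at most
`|B + F|` elements if every class modulo the range of `μ` meets `F`. -/
theorem card_preimage_le {Q : Type*} [AddCommGroup Q] [Fintype Q] [DecidableEq Q] (μ : Q →+ Q)
    (B F : Finset Q) (hF : ∀ q, ∃ y ∈ F, q - y ∈ μ.range) :
    (univ.filter fun a => μ a ∈ B).card ≤ (B + F).card := by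
  classical
  have h1 : (univ.filter fun a => μ a ∈ B).card =
      ∑ x ∈ B, (univ.filter fun a => μ a = x).card := by
    rw [Finset.card_eq_sum_card_fiberwise (f := μ) (t := B) (fun a ha => by simpa using ha)]
    refine Finset.sum_congr rfl fun x hx => ?_
    congr 1
    ext a
    simp only [Finset.mem_filter, Finset.mem_univ, true_and]
    exact ⟨fun h => h.2, fun h => ⟨h ▸ hx, h⟩⟩
  have h2 : ∀ x, (univ.filter fun a => μ a = x).card =
      if x ∈ μ.range then Nat.card μ.ker else 0 := by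
    intro x
    have h0 : (univ.filter fun a => μ a = 0).card = Nat.card μ.ker := by
      rw [Nat.card_eq_fintype_card, Fintype.card_subtype]
      congr 1
      ext a
      simp [AddMonoidHom.mem_ker]
    split_ifs with hx
    · rw [← h0]
      exact AddMonoidHom.card_fiber_eq_of_mem_range μ (by simpa using hx) ⟨0, map_zero μ⟩
    · rw [Finset.card_eq_zero, Finset.filter_eq_empty_iff]
      intro a _ ha
      exact hx ⟨a, ha⟩
  have h3 : (univ.filter fun a => μ a ∈ B).card =
      (B.filter fun x => x ∈ μ.range).card * Nat.card μ.ker := by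
    rw [h1, Finset.sum_congr rfl (fun x _ => h2 x), ← Finset.sum_filter, Finset.sum_const,
      smul_eq_mul]
  have h4 : Nat.card μ.ker = Nat.card (Q ⧸ μ.range) := by
    have e1 := μ.ker.card_mul_index
    rw [AddSubgroup.index_ker] at e1
    have e2 := μ.range.card_mul_index
    have e3 : 0 < Nat.card μ.range := Nat.card_pos
    rw [← e2, mul_comm] at e1
    exact Nat.eq_of_mul_eq_mul_left e3 e1
  have h5 : ∀ c : Q ⧸ μ.range, ∃ y ∈ F, (QuotientAddGroup.mk y : Q ⧸ μ.range) = c := by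
    intro c
    obtain ⟨q, rfl⟩ := QuotientAddGroup.mk_surjective c
    obtain ⟨y, hy, h⟩ := hF q
    refine ⟨y, hy, ?_⟩
    rw [QuotientAddGroup.eq]
    rwa [neg_add_eq_sub]
  choose t ht1 ht2 using h5
  have : Fintype (Q ⧸ μ.range) := Fintype.ofFinite _
  rw [h3, h4, Nat.card_eq_fintype_card, ← Finset.card_univ (α := Q ⧸ μ.range),
    ← Finset.card_product]
  refine Finset.card_le_card_of_injOn (fun r => r.1 + t r.2) ?_ ?_
  · rintro ⟨x, c⟩ hx
    simp only [Finset.coe_product, Finset.coe_filter, Set.mem_prod, Set.mem_ofPred_eq] at hx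
    exact Finset.add_mem_add hx.1.1 (ht1 c)
  · rintro ⟨x, c⟩ hx ⟨x', c'⟩ hx' h
    simp only [Finset.coe_product, Finset.coe_filter, Set.mem_prod, Set.mem_ofPred_eq] at hx hx'
    simp only at h
    have hc : c = c' := by
      have e := congrArg (fun q : Q => (QuotientAddGroup.mk q : Q ⧸ μ.range)) h
      simp only [QuotientAddGroup.mk_add] at e
      rw [(QuotientAddGroup.eq_zero_iff x).2 hx.1.2, (QuotientAddGroup.eq_zero_iff x').2 hx'.1.2,
        zero_add, zero_add, ht2, ht2] at e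
      exact e
    subst hc
    have := add_right_cancel h
    rw [this]

variable {R : Type*} [CommRing R] {d N : ℕ}

namespace Dat

/-- The element with given digits. -/
def ev (D : Dat R d N) {n : ℕ} (a : Fin n → Fin N) : R := ∑ i, ((a i : ℕ) : R) * D.p ^ (i : ℕ)

theorem ev_succ (D : Dat R d N) {n : ℕ} (a : Fin (n + 1) → Fin N) :
    D.ev a = ((a 0 : ℕ) : R) + D.p * D.ev (fun i => a i.succ) := by
  unfold ev
  rw [Fin.sum_univ_succ, Finset.mul_sum]
  congr 1
  · simp
  · refine Finset.sum_congr rfl fun i _ => ?_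
    rw [Fin.val_succ, pow_succ]
    ring

theorem p_dvd_N (D : Dat R d N) : D.p ∣ (N : R) := by
  have h1 : D.p ∣ D.p ^ d := dvd_pow_self _ D.hd.ne'
  rw [D.hp] at h1
  have h2 : ((D.ε : ℤ) : R) * (((D.ε * (N : ℤ) : ℤ)) : R) = (N : R) := by
    push_cast
    rcases D.hε with h | h <;> rw [h] <;> push_cast <;> ring
  rw [← h2]
  exact Dvd.dvd.mul_left h1 _

theorem dvd_int (D : Dat R d N) {t : ℤ} (h : D.p ∣ (t : R)) : (N : ℤ) ∣ t := by
  cases d with
  | zero => exact absurd D.hd (lt_irrefl 0)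
  | succ e =>
    obtain ⟨y, hy⟩ := h
    have h1 := (D.repr_pi_mul y).1
    rw [← hy] at h1
    have h2 : (t : R) = t • D.b 0 := by rw [D.hb]; simp
    rw [h2, map_smul, Basis.repr_self] at h1
    simp only [Finsupp.smul_apply, Finsupp.single_eq_same, smul_eq_mul, mul_one] at h1
    rw [h1]
    exact ⟨D.ε * D.b.repr y (Fin.last e), by ring⟩

theorem dvd_sub_coord (D : Dat R d N) (u : R) :
    D.p ∣ u - ((D.b.repr u ⟨0, D.hd⟩ : ℤ) : R) := by
  cases d with
  | zero => exact absurd D.hd (lt_irrefl 0)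
  | succ e =>
    have h := D.sum_repr u
    rw [Fin.sum_univ_succ] at h
    have h2 : u - ((D.b.repr u ⟨0, D.hd⟩ : ℤ) : R) =
        ∑ i : Fin e, ((D.b.repr u i.succ : ℤ) : R) * D.p ^ ((i.succ : Fin (e + 1)) : ℕ) := by
      change u - ((D.b.repr u 0 : ℤ) : R) = _
      rw [Fin.val_zero, pow_zero, mul_one] at h
      exact sub_eq_of_eq_add' h
    rw [h2]
    refine Finset.dvd_sum fun i _ => ?_
    rw [Fin.val_succ, pow_succ]
    exact ⟨((D.b.repr u i.succ : ℤ) : R) * D.p ^ (i : ℕ), by ring⟩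

theorem exists_digit (D : Dat R d N) (u : R) : ∃ s : Fin N, D.p ∣ u - ((s : ℕ) : R) := by
  have hN : 0 < (N : ℤ) := by have := D.hN; omega
  set c := D.b.repr u ⟨0, D.hd⟩ with hc
  have h1 := Int.emod_nonneg c hN.ne'
  have h2 := Int.emod_lt_of_pos c hN
  refine ⟨⟨(c % N).toNat, by omega⟩, ?_⟩
  have h3 : (((c % N).toNat : ℕ) : R) = ((c % N : ℤ) : R) := by
    rw [← Int.cast_natCast, Int.toNat_of_nonneg h1]
  simp only
  rw [h3]
  have h4 := D.dvd_sub_coord u
  have h5 : u - ((c % N : ℤ) : R) = (u - (c : R)) + (N : R) * ((c / N : ℤ) : R) := by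
    have h6 := Int.mul_ediv_add_emod c N
    have h7 : (c : R) = (N : R) * ((c / N : ℤ) : R) + ((c % N : ℤ) : R) := by
      conv_lhs => rw [← h6]
      push_cast
      ring
    rw [h7]
    ring
  rw [h5]
  exact dvd_add h4 (Dvd.dvd.mul_right D.p_dvd_N _)

theorem digit_unique (D : Dat R d N) {s s' : Fin N} (h : D.p ∣ ((s : ℕ) : R) - ((s' : ℕ) : R)) :
    s = s' := by
  have h1 : ((s : ℕ) : R) - ((s' : ℕ) : R) = (((s : ℕ) - (s' : ℕ) : ℤ) : R) := by push_cast; ring
  rw [h1] at h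
  have h2 := D.dvd_int h
  obtain ⟨k, hk⟩ := h2
  have h3 := s.2
  have h4 := s'.2
  have h5 : k = 0 := by
    by_contra hk0
    rcases lt_or_gt_of_ne hk0 with h | h
    · nlinarith
    · nlinarith
  rw [h5] at hk
  apply Fin.ext
  omega

theorem exists_ev (D : Dat R d N) (n : ℕ) (u : R) : ∃ a : Fin n → Fin N, D.p ^ n ∣ u - D.ev a := by
  induction n generalizing u with
  | zero => exact ⟨fun i => i.elim0, by simp⟩
  | succ n ih =>
    obtain ⟨s, u', hu'⟩ := D.exists_digit u
    obtain ⟨a, y, hy⟩ := ih u'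
    refine ⟨Fin.cons s a, y, ?_⟩
    rw [ev_succ]
    simp only [Fin.cons_zero, Fin.cons_succ]
    have h1 : u - (((s : ℕ) : R) + D.p * D.ev a) = D.p * (u' - D.ev a) := by
      rw [mul_sub, ← hu']
      ring
    rw [h1, hy, pow_succ]
    ring

theorem ev_injective [IsDomain R] (D : Dat R d N) (n : ℕ) (a a' : Fin n → Fin N)
    (h : D.p ^ n ∣ D.ev a - D.ev a') : a = a' := by
  induction n with
  | zero => exact funext fun i => i.elim0
  | succ n ih =>
    rw [ev_succ, ev_succ] at h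
    have h1 : D.p ∣ ((a 0 : ℕ) : R) - ((a' 0 : ℕ) : R) := by
      have h2 : D.p ∣ ((a 0 : ℕ) : R) + D.p * D.ev (fun i => a i.succ) -
          (((a' 0 : ℕ) : R) + D.p * D.ev (fun i => a' i.succ)) :=
        dvd_trans (dvd_pow_self _ (Nat.succ_ne_zero n)) h
      have h3 : ((a 0 : ℕ) : R) - ((a' 0 : ℕ) : R) =
          (((a 0 : ℕ) : R) + D.p * D.ev (fun i => a i.succ) -
          (((a' 0 : ℕ) : R) + D.p * D.ev (fun i => a' i.succ))) -
          D.p * (D.ev (fun i => a i.succ) - D.ev (fun i => a' i.succ)) := by ring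
      rw [h3]
      exact dvd_sub h2 (Dvd.intro _ rfl)
    have h4 := D.digit_unique h1
    have h5 : D.p ^ n ∣ D.ev (fun i => a i.succ) - D.ev (fun i => a' i.succ) := by
      obtain ⟨y, hy⟩ := h
      refine ⟨y, ?_⟩
      apply mul_left_cancel₀ D.p_ne_zero
      rw [h4] at hy
      rw [← mul_assoc, ← pow_succ', ← hy]
      ring
    have h6 := ih _ _ h5
    funext i
    refine Fin.cases h4 (fun j => ?_) i
    exact congrFun h6 j

/-- The residue ring. -/
abbrev Q (D : Dat R d N) (n : ℕ) : Type _ := R ⧸ Ideal.span {D.p ^ n}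

theorem mk_eq_iff (D : Dat R d N) {n : ℕ} {u v : R} :
    (Ideal.Quotient.mk (Ideal.span {D.p ^ n}) u) = Ideal.Quotient.mk _ v ↔ D.p ^ n ∣ u - v := by
  rw [Ideal.Quotient.mk_eq_mk_iff_sub_mem, Ideal.mem_span_singleton]

theorem ev_bijective [IsDomain R] (D : Dat R d N) (n : ℕ) : Function.Bijective
    (fun a : Fin n → Fin N => Ideal.Quotient.mk (Ideal.span {D.p ^ n}) (D.ev a)) := by
  constructor
  · intro a a' h
    exact D.ev_injective n a a' (D.mk_eq_iff.1 h)
  · intro q
    obtain ⟨u, rfl⟩ := Ideal.Quotient.mk_surjective q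
    obtain ⟨a, ha⟩ := D.exists_ev n u
    refine ⟨a, (D.mk_eq_iff.2 ?_).symm⟩
    exact ha

theorem finite_Q [IsDomain R] (D : Dat R d N) (n : ℕ) : Finite (D.Q n) :=
  Finite.of_surjective _ (D.ev_bijective n).2

theorem card_Q [IsDomain R] (D : Dat R d N) (n : ℕ) : Nat.card (D.Q n) = N ^ n := by
  rw [← Nat.card_congr (Equiv.ofBijective _ (D.ev_bijective n))]
  simp

/-- The number of digit strings `a` with `a g` congruent to a small element. -/
theorem card_one [IsDomain R] (D : Dat R d N) (n : ℕ) {X : ℝ} (hX : 0 ≤ X) {g : R} (hg : g ≠ 0)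
    (hgX : D.ρ g ≤ X) : Set.ncard {a : Fin n → Fin N | ∃ f, D.ρ f ≤ X ∧ D.p ^ n ∣ f - D.ev a * g} ≤
      (D.ball (X + d * D.A * X)).card := by
  classical
  have := D.finite_Q n
  have : Fintype (D.Q n) := Fintype.ofFinite _
  set mk := Ideal.Quotient.mk (Ideal.span {D.p ^ n}) with hmk
  let μ : D.Q n →+ D.Q n := AddMonoidHom.mulRight (mk g)
  have hdAX : 0 ≤ d * D.A * X := by
    have := D.one_le_A
    positivity
  have key := card_preimage_le μ ((D.ball X).image mk) ((D.ball (d * D.A * X)).image mk) (by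
    intro q
    obtain ⟨r, rfl⟩ := Ideal.Quotient.mk_surjective q
    obtain ⟨q', hq'⟩ := D.reduce_mod hg r
    refine ⟨mk (r - q' * g), Finset.mem_image_of_mem _ ?_, ⟨mk q', ?_⟩⟩
    · rw [D.mem_ball hdAX]
      refine hq'.trans ?_
      have := D.one_le_A
      gcongr
    · change mk q' * mk g = _
      rw [← map_mul, ← map_sub]
      congr 1
      ring)
  have h1 : ((D.ball X).image mk + (D.ball (d * D.A * X)).image mk).card ≤
      (D.ball (X + d * D.A * X)).card := by
    refine le_trans (Finset.card_le_card ?_) (Finset.card_image_le (f := mk))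
    intro q hq
    obtain ⟨x, hx, y, hy, rfl⟩ := Finset.mem_add.1 hq
    obtain ⟨u, hu, rfl⟩ := Finset.mem_image.1 hx
    obtain ⟨v, hv, rfl⟩ := Finset.mem_image.1 hy
    rw [← map_add]
    refine Finset.mem_image_of_mem _ ?_
    rw [D.mem_ball hX] at hu
    rw [D.mem_ball hdAX] at hv
    rw [D.mem_ball (add_nonneg hX hdAX)]
    exact (D.ρ_add_le u v).trans (add_le_add hu hv)
  refine le_trans ?_ (key.trans h1)
  rw [← Set.ncard_coe_finset]
  refine Set.ncard_le_ncard_of_injOn (fun a => mk (D.ev a)) ?_ ?_ (Finset.finite_toSet _)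
  · rintro a ⟨f, hf, hfa⟩
    simp only [Finset.coe_filter, Finset.mem_univ, true_and, Set.mem_ofPred_eq]
    refine Finset.mem_image.2 ⟨f, (D.mem_ball hX).2 hf, ?_⟩
    change mk f = mk (D.ev a) * mk g
    rw [← map_mul]
    exact D.mk_eq_iff.2 hfa
  · exact fun a _ a' _ h => (D.ev_bijective n).1 h

/-- The number of digit strings whose lattice has a short nonzero vector. -/
theorem card_short [IsDomain R] (D : Dat R d N) (n : ℕ) {X : ℝ} (hX : 0 ≤ X)
    (hXn : X < D.κ ^ n) : Set.ncard {a : Fin n → Fin N | ∃ f g, (f ≠ 0 ∨ g ≠ 0) ∧ D.ρ f ≤ X ∧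
      D.ρ g ≤ X ∧ D.p ^ n ∣ f - D.ev a * g} ≤
      (D.ball X).card * (D.ball (X + d * D.A * X)).card := by
  classical
  have h0 : ∀ f g : R, ∀ a : Fin n → Fin N, (f ≠ 0 ∨ g ≠ 0) → D.ρ f ≤ X →
      D.p ^ n ∣ f - D.ev a * g → g ≠ 0 := by
    intro f g a h1 h2 h3 h4
    rw [h4, mul_zero, sub_zero] at h3
    obtain ⟨y, rfl⟩ := h3
    have h5 : y ≠ 0 := by
      rintro rfl
      simp [h4] at h1
    rw [D.ρ_pi_pow_mul] at h2
    have h6 := D.one_le_ρ h5
    have h7 := pow_pos D.κ_pos n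
    nlinarith
  have hsub : {a : Fin n → Fin N | ∃ f g, (f ≠ 0 ∨ g ≠ 0) ∧ D.ρ f ≤ X ∧
      D.ρ g ≤ X ∧ D.p ^ n ∣ f - D.ev a * g} ⊆ ((D.ball X).filter (fun g => g ≠ 0)).biUnion
        (fun g => (Finset.univ.filter
          (fun a : Fin n → Fin N => ∃ f, D.ρ f ≤ X ∧ D.p ^ n ∣ f - D.ev a * g))) := by
    rintro a ⟨f, g, h1, h2, h3, h4⟩
    rw [Finset.mem_coe, Finset.mem_biUnion]
    refine ⟨g, Finset.mem_filter.2 ⟨(D.mem_ball hX).2 h3, h0 f g a h1 h2 h4⟩, ?_⟩
    exact Finset.mem_filter.2 ⟨Finset.mem_univ _, f, h2, h4⟩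
  refine (Set.ncard_le_ncard hsub (Finset.finite_toSet _)).trans ?_
  rw [Set.ncard_coe_finset]
  refine (Finset.card_biUnion_le_card_mul _ _ (D.ball (X + d * D.A * X)).card ?_).trans ?_
  · intro g hg
    obtain ⟨hg1, hg2⟩ := Finset.mem_filter.1 hg
    have h1 := D.card_one n hX hg2 ((D.mem_ball hX).1 hg1)
    rw [← Set.ncard_coe_finset]
    simpa using h1
  · exact Nat.mul_le_mul_right _ (Finset.card_filter_le _ _)

end Dat

end Pool.Agent.H78R3.PiAdic
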