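import Pool.Agent.H78R3.Pi.Count

/-!
# The ring `ℤ[π]` with `π^d = ± N`: short vectors of the lattices `f ≡ a g (mod π^n)`
-/

namespace Pool.Agent.H78R3.PiAdic

open Finset Module MeasureTheory Metric
open scoped ENNReal

/-- A separated set in a ball of a finite dimensional normed space is small. -/
theorem card_le_of_sep {E : Type*} [NormedAddCommGroup E] [NormedSpace ℝ E]
    [FiniteDimensional ℝ E] (s : Finset E) {r δ : ℝ} (hδ : 0 < δ) (hr : 0 ≤ r)
    (hs : ∀ c ∈ s, ‖c‖ ≤ r) (h : ∀ c ∈ s, ∀ d ∈ s, c ≠ d → δ ≤ ‖c - d‖) :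
    (s.card : ℝ) ≤ ((r + δ / 2) / (δ / 2)) ^ finrank ℝ E := by
  borelize E
  let μ : Measure E := Measure.addHaar
  set e : ℝ := δ / 2 with he
  set q : ℝ := r + δ / 2 with hq
  have epos : 0 < e := by positivity
  have qpos : 0 < q := by positivity
  set A := ⋃ c ∈ s, ball (c : E) e with hA
  have D : Set.Pairwise (s : Set E) (Function.onFun Disjoint fun c => ball (c : E) e) := by
    rintro c hc d hd hcd
    apply ball_disjoint_ball
    rw [dist_eq_norm]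
    have := h c hc d hd hcd
    linarith
  have A_subset : A ⊆ ball (0 : E) q := by
    refine Set.iUnion₂_subset fun x hx => ?_
    apply ball_subset_ball'
    rw [dist_zero_right]
    have := hs x hx
    linarith
  have I : (s.card : ℝ≥0∞) * ENNReal.ofReal (e ^ finrank ℝ E) * μ (ball 0 1) ≤
      ENNReal.ofReal (q ^ finrank ℝ E) * μ (ball 0 1) :=
    calc
      (s.card : ℝ≥0∞) * ENNReal.ofReal (e ^ finrank ℝ E) * μ (ball 0 1) = μ A := by
        rw [hA, measure_biUnion_finset D fun c _ => measurableSet_ball]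
        simp only [μ.addHaar_ball_of_pos _ epos]
        simp only [Finset.sum_const, nsmul_eq_mul, mul_assoc]
      _ ≤ μ (ball (0 : E) q) := measure_mono A_subset
      _ = ENNReal.ofReal (q ^ finrank ℝ E) * μ (ball 0 1) := by
        simp only [μ.addHaar_ball_of_pos _ qpos]
  have J : (s.card : ℝ≥0∞) * ENNReal.ofReal (e ^ finrank ℝ E) ≤
      ENNReal.ofReal (q ^ finrank ℝ E) :=
    (ENNReal.mul_le_mul_iff_left (measure_ball_pos _ _ zero_lt_one).ne' measure_ball_lt_top.ne).1 I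
  have K := ENNReal.toReal_le_of_le_ofReal (pow_nonneg qpos.le _) J
  rw [ENNReal.toReal_mul, ENNReal.toReal_natCast, ENNReal.toReal_ofReal (by positivity)] at K
  rw [div_pow, le_div_iff₀ (by positivity)]
  exact K

variable {R : Type*} [CommRing R] {d N : ℕ}

namespace Dat

/-- The weighted coordinates of pairs. -/
noncomputable def emb2 (D : Dat R d N) : R × R →+ (Fin d → ℝ) × (Fin d → ℝ) :=
  AddMonoidHom.prodMap D.emb D.emb

/-- The size of a pair. -/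
noncomputable def ρ2 (D : Dat R d N) (v : R × R) : ℝ := max (D.ρ v.1) (D.ρ v.2)

theorem norm_emb2 (D : Dat R d N) (v : R × R) : ‖D.emb2 v‖ = D.ρ2 v := rfl

theorem ρ2_nonneg (D : Dat R d N) (v : R × R) : 0 ≤ D.ρ2 v := le_max_of_le_left (D.ρ_nonneg _)

theorem ρ2_sub_le (D : Dat R d N) (v w : R × R) : D.ρ2 (v - w) ≤ D.ρ2 v + D.ρ2 w := by
  rw [← norm_emb2, ← norm_emb2, ← norm_emb2, map_sub]
  exact norm_sub_le _ _

theorem one_le_ρ2 (D : Dat R d N) {v : R × R} (hv : v ≠ 0) : 1 ≤ D.ρ2 v := by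
  by_cases h : v.1 = 0
  · have h2 : v.2 ≠ 0 := fun h2 => hv (Prod.ext h h2)
    exact (D.one_le_ρ h2).trans (le_max_right _ _)
  · exact (D.one_le_ρ h).trans (le_max_left _ _)

/-- The lattice. -/
def InL (D : Dat R d N) (n : ℕ) (a : R) (v : R × R) : Prop := D.p ^ n ∣ v.1 - a * v.2

theorem InL.sub {D : Dat R d N} {n : ℕ} {a : R} {v w : R × R} (hv : D.InL n a v)
    (hw : D.InL n a w) : D.InL n a (v - w) := by
  unfold InL at *
  have : (v - w).1 - a * (v - w).2 = (v.1 - a * v.2) - (w.1 - a * w.2) := by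
    simp only [Prod.fst_sub, Prod.snd_sub]; ring
  rw [this]
  exact dvd_sub hv hw

theorem InL.mul {D : Dat R d N} {n : ℕ} {a : R} {v : R × R} (hv : D.InL n a v) (r : R) :
    D.InL n a (r * v.1, r * v.2) := by
  unfold InL at *
  have : (r * v.1, r * v.2).1 - a * (r * v.1, r * v.2).2 = r * (v.1 - a * v.2) := by
    simp only; ring
  rw [this]
  exact Dvd.dvd.mul_left hv r

/-- A shortest nonzero vector. -/
theorem exists_min (D : Dat R d N) (n : ℕ) (a : R) (hpn : D.p ^ n ≠ 0) : ∃ v : R × R, v ≠ 0 ∧ D.InL n a v ∧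
    ∀ w : R × R, w ≠ 0 → D.InL n a w → D.ρ2 v ≤ D.ρ2 w := by
  classical
  set v₀ : R × R := (D.p ^ n, 0) with hv₀
  have h0 : v₀ ≠ 0 := fun h => hpn (by rw [hv₀] at h; exact congrArg Prod.fst h)
  have h1 : D.InL n a v₀ := by simp [InL, v₀]
  set X := D.ρ2 v₀ with hX
  have hX0 : 0 ≤ X := D.ρ2_nonneg _
  have hmem : ∀ v : R × R, D.ρ2 v ≤ X ↔ v ∈ D.ball X ×ˢ D.ball X := by
    intro v
    rw [Finset.mem_product, D.mem_ball hX0, D.mem_ball hX0]
    exact max_le_iff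
  obtain ⟨v, hv, hmin⟩ := Finset.exists_min_image
    ((D.ball X ×ˢ D.ball X).filter (fun v => v ≠ 0 ∧ D.InL n a v)) D.ρ2
    ⟨v₀, Finset.mem_filter.2 ⟨(hmem v₀).1 le_rfl, h0, h1⟩⟩
  obtain ⟨hv1, hv2, hv3⟩ := Finset.mem_filter.1 hv
  refine ⟨v, hv2, hv3, fun w hw1 hw2 => ?_⟩
  rcases le_or_gt (D.ρ2 w) X with h | h
  · exact hmin w (Finset.mem_filter.2 ⟨(hmem w).1 h, hw1, hw2⟩)
  · exact ((hmem v).2 hv1).trans h.le

/-- Pigeonhole. -/
theorem pigeon [IsDomain R] (D : Dat R d N) (n : ℕ) (a : R) {X : ℝ} (hX : 0 ≤ X) (M : ℕ)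
    (h : N ^ n * M < (D.ball X).card ^ 2) : ∃ P : Finset (R × R), M < P.card ∧
      ∀ v ∈ P, D.InL n a v ∧ D.ρ2 v ≤ 2 * X := by
  classical
  have := D.finite_Q n
  have : Fintype (D.Q n) := Fintype.ofFinite _
  have hc : (Finset.univ : Finset (D.Q n)).card = N ^ n := by
    rw [Finset.card_univ, ← Nat.card_eq_fintype_card, D.card_Q]
  obtain ⟨y, -, hy⟩ := Finset.exists_lt_card_fiber_of_mul_lt_card_of_maps_to
    (s := D.ball X ×ˢ D.ball X) (t := (Finset.univ : Finset (D.Q n)))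
    (f := fun v : R × R => Ideal.Quotient.mk (Ideal.span {D.p ^ n}) (v.1 - a * v.2)) (n := M)
    (fun _ _ => Finset.mem_univ _) (by rw [hc, Finset.card_product, ← sq]; exact h)
  set F := (D.ball X ×ˢ D.ball X).filter
    (fun v => Ideal.Quotient.mk (Ideal.span {D.p ^ n}) (v.1 - a * v.2) = y) with hF
  obtain ⟨v₀, hv₀⟩ : F.Nonempty := Finset.card_pos.1 (by omega)
  refine ⟨F.image (fun v => v - v₀), ?_, ?_⟩
  · rw [Finset.card_image_of_injective _ (sub_left_injective)]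
    exact hy
  · intro v hv
    obtain ⟨w, hw, rfl⟩ := Finset.mem_image.1 hv
    obtain ⟨hw1, hw2⟩ := Finset.mem_filter.1 hw
    obtain ⟨hv1, hv2⟩ := Finset.mem_filter.1 hv₀
    rw [Finset.mem_product, D.mem_ball hX, D.mem_ball hX] at hw1 hv1
    constructor
    · have h1 := D.mk_eq_iff.1 (hw2.trans hv2.symm)
      unfold InL
      have : (w - v₀).1 - a * (w - v₀).2 = (w.1 - a * w.2) - (v₀.1 - a * v₀.2) := by
        simp only [Prod.fst_sub, Prod.snd_sub]; ring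
      rw [this]
      exact h1
    · have h1 : D.ρ2 w ≤ X := max_le hw1.1 hw1.2
      have h2 : D.ρ2 v₀ ≤ X := max_le hv1.1 hv1.2
      have := D.ρ2_sub_le w v₀
      linarith

/-- The determinant. -/
def det2 (v w : R × R) : R := v.1 * w.2 - v.2 * w.1

theorem emb2_int (D : Dat R d N) (c : ℤ) (v : R × R) :
    D.emb2 ((c : R) * v.1, (c : R) * v.2) = (c : ℝ) • D.emb2 v := by
  apply Prod.ext
  · exact D.emb_int_mul c v.1
  · exact D.emb_int_mul c v.2

/-- Vectors parallel to a nonzero vector lie in a `d`-dimensional real space. -/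
theorem parallel [IsDomain R] (D : Dat R d N) {v₁ : R × R} (hv₁ : v₁ ≠ 0) {v : R × R}
    (hv : det2 v₁ v = 0) : D.emb2 v ∈ Submodule.span ℝ
      (Set.range fun i : Fin d => D.emb2 (D.p ^ (i : ℕ) * v₁.1, D.p ^ (i : ℕ) * v₁.2)) := by
  unfold det2 at hv
  have key : ∃ (c : ℤ) (t : R), c ≠ 0 ∧ (c : R) * v.1 = t * v₁.1 ∧ (c : R) * v.2 = t * v₁.2 := by
    by_cases h : v₁.1 = 0
    · have h2 : v₁.2 ≠ 0 := fun h2 => hv₁ (Prod.ext h h2)
      obtain ⟨c, s, hc, hs⟩ := D.exists_mul_eq_int h2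
      refine ⟨c, s * v.2, hc, ?_, ?_⟩
      · rw [← hs]; linear_combination (-s) * hv
      · rw [← hs]; ring
    · obtain ⟨c, s, hc, hs⟩ := D.exists_mul_eq_int h
      refine ⟨c, s * v.1, hc, ?_, ?_⟩
      · rw [← hs]; ring
      · rw [← hs]; linear_combination s * hv
  obtain ⟨c, t, hc, h1, h2⟩ := key
  set E := Submodule.span ℝ
      (Set.range fun i : Fin d => D.emb2 (D.p ^ (i : ℕ) * v₁.1, D.p ^ (i : ℕ) * v₁.2)) with hE
  have h3 : D.emb2 ((c : R) * v.1, (c : R) * v.2) ∈ E := by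
    rw [h1, h2]
    have h4 : ((t * v₁.1, t * v₁.2) : R × R) = ∑ i : Fin d,
        (((D.b.repr t i : ℤ) : R) * (D.p ^ (i : ℕ) * v₁.1),
          ((D.b.repr t i : ℤ) : R) * (D.p ^ (i : ℕ) * v₁.2)) := by
      apply Prod.ext
      · rw [Prod.fst_sum]
        conv_lhs => rw [D.sum_repr t]
        simp only
        rw [Finset.sum_mul]
        exact Finset.sum_congr rfl fun i _ => by ring
      · rw [Prod.snd_sum]
        conv_lhs => rw [D.sum_repr t]
        simp only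
        rw [Finset.sum_mul]
        exact Finset.sum_congr rfl fun i _ => by ring
    rw [h4, map_sum]
    refine Submodule.sum_mem _ fun i _ => ?_
    have h5 := D.emb2_int (D.b.repr t i) (D.p ^ (i : ℕ) * v₁.1, D.p ^ (i : ℕ) * v₁.2)
    rw [h5]
    exact Submodule.smul_mem _ _ (Submodule.subset_span ⟨i, rfl⟩)
  rw [D.emb2_int] at h3
  have hc' : (c : ℝ) ≠ 0 := by exact_mod_cast hc
  exact (Submodule.smul_mem_iff _ hc').1 h3

/-- Packing bound for parallel vectors. -/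
theorem packing [IsDomain R] (D : Dat R d N) (n : ℕ) (a : R) {v₁ : R × R} (hv₁ : v₁ ≠ 0) {m r : ℝ}
    (hm : 0 < m) (hr : 0 ≤ r) (hmin : ∀ w : R × R, w ≠ 0 → D.InL n a w → m ≤ D.ρ2 w)
    (P : Finset (R × R)) (hP : ∀ v ∈ P, D.InL n a v ∧ D.ρ2 v ≤ r) (hdet : ∀ v ∈ P, det2 v₁ v = 0) :
    (P.card : ℝ) ≤ ((r + m / 2) / (m / 2)) ^ d := by
  classical
  set E := Submodule.span ℝ
      (Set.range fun i : Fin d => D.emb2 (D.p ^ (i : ℕ) * v₁.1, D.p ^ (i : ℕ) * v₁.2)) with hE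
  have hfin : finrank ℝ E ≤ d := by
    have h := finrank_range_le_card (R := ℝ)
      (b := fun i : Fin d => D.emb2 (D.p ^ (i : ℕ) * v₁.1, D.p ^ (i : ℕ) * v₁.2))
    rw [Fintype.card_fin] at h
    exact h
  let f : P → E := fun v => ⟨D.emb2 v.1, D.parallel hv₁ (hdet v.1 v.2)⟩
  have hsep : ∀ v w : P, v ≠ w → m ≤ ‖f v - f w‖ := by
    intro v w hvw
    have h1 : ‖f v - f w‖ = D.ρ2 (v.1 - w.1) := by
      rw [← D.norm_emb2, map_sub]
      rfl
    rw [h1]
    exact hmin _ (sub_ne_zero.2 fun h => hvw (Subtype.ext h)) ((hP v.1 v.2).1.sub (hP w.1 w.2).1)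
  have hinj : Function.Injective f := by
    intro v w h
    by_contra hvw
    have := hsep v w hvw
    rw [h, sub_self, norm_zero] at this
    linarith
  have h2 := card_le_of_sep (Finset.univ.image f) hm hr (by
    intro c hc
    obtain ⟨v, -, rfl⟩ := Finset.mem_image.1 hc
    have : ‖f v‖ = D.ρ2 v.1 := rfl
    rw [this]
    exact (hP v.1 v.2).2) (by
    intro c hc c' hc' hne
    obtain ⟨v, -, rfl⟩ := Finset.mem_image.1 hc
    obtain ⟨w, -, rfl⟩ := Finset.mem_image.1 hc'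
    exact hsep v w fun h => hne (by rw [h]))
  rw [Finset.card_image_of_injective _ hinj, Finset.card_univ, Fintype.card_coe] at h2
  refine h2.trans (pow_le_pow_right₀ ?_ hfin)
  rw [le_div_iff₀ (by positivity)]
  linarith

/-- **The lattice `f ≡ a g (mod π^n)`**: the length `m` of a shortest nonzero vector controls the
smallest size of a vector whose second coordinate is `1` modulo `π`. -/
theorem exists_good [IsDomain R] (D : Dat R d N) (n : ℕ) (a : R) : ∃ m : ℝ, 1 ≤ m ∧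
    (∃ v : R × R, v ≠ 0 ∧ D.InL n a v ∧ D.ρ2 v = m) ∧
    (∀ w : R × R, w ≠ 0 → D.InL n a w → m ≤ D.ρ2 w) ∧
    m ^ 2 ≤ 16 * D.A ^ 2 * D.κ ^ n ∧
    ∃ u : R × R, D.InL n a u ∧ D.p ∣ u.2 - 1 ∧
      D.ρ2 u ≤ 48 * d * N * D.A ^ 2 * D.κ ^ n / m := by
  classical
  have hpn : D.p ^ n ≠ 0 := pow_ne_zero _ D.p_ne_zero
  obtain ⟨v₁, hv₁, hL₁, hmin⟩ := D.exists_min n a hpn
  set m := D.ρ2 v₁ with hm
  have hm1 : 1 ≤ m := D.one_le_ρ2 hv₁
  have hm0 : 0 < m := by linarith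
  have hA := D.one_le_A
  have hA0 : 0 < D.A := by linarith
  have hκn : 0 < D.κ ^ n := pow_pos D.κ_pos n
  have hNn : ((N : ℝ)) ^ n = (D.κ ^ n) ^ d := by rw [← D.κ_pow, ← pow_mul, ← pow_mul, mul_comm]
  -- Minkowski
  have hm2 : m ^ 2 ≤ 16 * D.A ^ 2 * D.κ ^ n := by
    set X := 2 * D.A * Real.sqrt (D.κ ^ n) with hX
    have hX0 : 0 ≤ X := by positivity
    have hX2 : X ^ 2 = 4 * D.A ^ 2 * D.κ ^ n := by
      rw [hX, mul_pow, Real.sq_sqrt hκn.le]; ring
    have h1 : N ^ n * 1 < (D.ball X).card ^ 2 := by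
      have h2 := D.le_card_ball hX0
      have h3 : (0 : ℝ) ≤ (X / D.A) ^ d := by positivity
      have h4 : ((X / D.A) ^ d) ^ 2 ≤ ((D.ball X).card : ℝ) ^ 2 := pow_le_pow_left₀ h3 h2 2
      have h5 : ((X / D.A) ^ d) ^ 2 = 4 ^ d * (D.κ ^ n) ^ d := by
        rw [← pow_mul, mul_comm d 2, pow_mul, div_pow, hX2, ← mul_pow]
        congr 1
        field_simp
      have h6 : (1 : ℝ) < 4 ^ d := one_lt_pow₀ (by norm_num) D.hd.ne'
      have h7 : (0 : ℝ) < (D.κ ^ n) ^ d := by positivity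
      have h8 : ((N : ℝ)) ^ n < ((D.ball X).card : ℝ) ^ 2 := by
        rw [hNn]
        nlinarith
      rw [mul_one]
      exact_mod_cast h8
    obtain ⟨P, hP1, hP2⟩ := D.pigeon n a hX0 1 h1
    obtain ⟨u, hu, hu0⟩ : ∃ u ∈ P, u ≠ 0 := by
      by_contra hcon
      push Not at hcon
      have : P ⊆ {0} := fun u hu => Finset.mem_singleton.2 (hcon u hu)
      have := Finset.card_le_card this
      rw [Finset.card_singleton] at this
      omega
    have h9 := (hmin u hu0 (hP2 u hu).1).trans (hP2 u hu).2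
    nlinarith
  -- a second vector
  have hmm : m ≤ 16 * D.A ^ 2 * D.κ ^ n / m := by
    rw [le_div_iff₀ hm0]; nlinarith
  obtain ⟨w, hwL, hw, hdet⟩ : ∃ w, D.InL n a w ∧ D.ρ2 w ≤ 2 * (16 * D.A ^ 2 * D.κ ^ n / m) ∧
      det2 v₁ w ≠ 0 := by
    set X := 16 * D.A ^ 2 * D.κ ^ n / m with hX
    have hX0 : 0 < X := by positivity
    set B : ℝ := ((2 * X + m / 2) / (m / 2)) ^ d with hB
    have hB0 : 0 ≤ B := by positivity
    have h1 : N ^ n * ⌊B⌋₊ < (D.ball X).card ^ 2 := by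
      have h2 := D.le_card_ball hX0.le
      have h3 : (0 : ℝ) ≤ (X / D.A) ^ d := by positivity
      have h4 : ((X / D.A) ^ d) ^ 2 ≤ ((D.ball X).card : ℝ) ^ 2 := pow_le_pow_left₀ h3 h2 2
      have h5 : ((N : ℝ)) ^ n * B < ((X / D.A) ^ d) ^ 2 := by
        rw [hNn, hB, ← mul_pow, ← pow_mul, mul_comm d 2, pow_mul]
        apply pow_lt_pow_left₀ _ (by positivity) D.hd.ne'
        have h6 : (2 * X + m / 2) / (m / 2) ≤ 5 * X / m := by
          rw [div_le_div_iff₀ (by positivity) hm0]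
          nlinarith
        have h7 : (X / D.A) ^ 2 = 16 * D.κ ^ n * X / m := by
          rw [div_pow, sq X]
          nth_rewrite 1 [hX]
          field_simp
        rw [h7]
        calc D.κ ^ n * ((2 * X + m / 2) / (m / 2)) ≤ D.κ ^ n * (5 * X / m) := by gcongr
          _ = 5 * (D.κ ^ n * (X / m)) := by ring
          _ < 16 * (D.κ ^ n * (X / m)) := by
            have : 0 < D.κ ^ n * (X / m) := by positivity
            linarith
          _ = 16 * D.κ ^ n * X / m := by ring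
      have h6 : ((⌊B⌋₊ : ℕ) : ℝ) ≤ B := Nat.floor_le hB0
      have h7 : ((N : ℝ)) ^ n * (⌊B⌋₊ : ℕ) < ((D.ball X).card : ℝ) ^ 2 := by
        have h8 : (0 : ℝ) ≤ (N : ℝ) ^ n := by positivity
        nlinarith
      exact_mod_cast h7
    obtain ⟨P, hP1, hP2⟩ := D.pigeon n a hX0.le ⌊B⌋₊ h1
    by_contra hcon
    push Not at hcon
    have h9 := D.packing n a hv₁ hm0 (by positivity : (0 : ℝ) ≤ 2 * X) hmin P hP2
      (fun v hv => hcon v (hP2 v hv).1 (hP2 v hv).2)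
    have h10 := Nat.lt_of_floor_lt hP1
    linarith
  refine ⟨m, hm1, ⟨v₁, hv₁, hL₁, rfl⟩, hmin, hm2, ?_⟩
  -- rounding
  obtain ⟨c, s, hc, hs⟩ := D.exists_mul_eq_int hdet
  obtain ⟨yN, hyN⟩ := D.p_dvd_N
  have hN0 : (N : ℤ) ≠ 0 := by have := D.hN; omega
  have hc' : (N : ℤ) * c ≠ 0 := mul_ne_zero hN0 hc
  obtain ⟨q₁, X₁, e1, b1⟩ := D.reduce ((N : ℤ) * c) hc' (yN * s * det2 (a, 1) w)
  obtain ⟨q₂, X₂, e2, b2⟩ := D.reduce ((N : ℤ) * c) hc' (yN * s * det2 v₁ (a, 1))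
  set c' : ℤ := (N : ℤ) * c with hcdef
  have hc'R : (c' : R) = D.p * (yN * s * det2 v₁ w) := by
    rw [hcdef]
    push_cast
    rw [hyN, ← hs]
    ring
  set u : R × R := (a - D.p * (q₁ * v₁.1 + q₂ * w.1), 1 - D.p * (q₁ * v₁.2 + q₂ * w.2)) with hu
  have hu1 : (c' : R) * u.1 = D.p * (X₁ * v₁.1 + X₂ * w.1) := by
    have e1' : X₁ = yN * s * det2 (a, 1) w - (c' : R) * q₁ := by rw [e1]; ring
    have e2' : X₂ = yN * s * det2 v₁ (a, 1) - (c' : R) * q₂ := by rw [e2]; ring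
    rw [e1', e2', hu]
    simp only [det2] at hc'R ⊢
    rw [mul_sub, hc'R]
    ring
  have hu2 : (c' : R) * u.2 = D.p * (X₁ * v₁.2 + X₂ * w.2) := by
    have e1' : X₁ = yN * s * det2 (a, 1) w - (c' : R) * q₁ := by rw [e1]; ring
    have e2' : X₂ = yN * s * det2 v₁ (a, 1) - (c' : R) * q₂ := by rw [e2]; ring
    rw [e1', e2', hu]
    simp only [det2] at hc'R ⊢
    rw [mul_sub, hc'R]
    ring
  have hcpos : 0 < |(c' : ℝ)| := abs_pos.2 (by exact_mod_cast hc')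
  have hbound : ∀ x y z : R, (c' : R) * x = D.p * (X₁ * y + X₂ * z) → D.ρ y ≤ m →
      D.ρ z ≤ D.ρ2 w → D.ρ x ≤ d * N * (m + D.ρ2 w) := by
    intro x y z h hy hz
    have h1 : |(c' : ℝ)| * D.ρ x ≤ |(c' : ℝ)| * (d * N * (m + D.ρ2 w)) := by
      rw [← D.ρ_int_mul, h, D.ρ_pi_mul]
      have h2 := D.ρ_add_le (X₁ * y) (X₂ * z)
      have h3 := b1 y
      have h4 := b2 z
      have hκ := D.κ_pos
      have h5 : D.ρ (X₁ * y + X₂ * z) ≤ |(c' : ℝ)| * (d * D.A * (m + D.ρ2 w)) := by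
        calc D.ρ (X₁ * y + X₂ * z) ≤ |(c' : ℝ)| * (d * D.A * D.ρ y) +
              |(c' : ℝ)| * (d * D.A * D.ρ z) := by linarith
          _ ≤ |(c' : ℝ)| * (d * D.A * m) + |(c' : ℝ)| * (d * D.A * D.ρ2 w) := by gcongr
          _ = _ := by ring
      calc D.κ * D.ρ (X₁ * y + X₂ * z) ≤ D.κ * (|(c' : ℝ)| * (d * D.A * (m + D.ρ2 w))) := by
            gcongr
        _ = |(c' : ℝ)| * (d * (D.A * D.κ) * (m + D.ρ2 w)) := by ring
        _ = _ := by rw [D.A_mul_κ]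
    exact le_of_mul_le_mul_left h1 hcpos
  have hρu : D.ρ2 u ≤ d * N * (m + D.ρ2 w) :=
    max_le (hbound _ _ _ hu1 (le_max_left _ _) (le_max_left _ _))
      (hbound _ _ _ hu2 (le_max_right _ _) (le_max_right _ _))
  refine ⟨u, ?_, ?_, ?_⟩
  · have h1 := (InL.mul hL₁ (D.p * q₁))
    have h2 := (InL.mul hwL (D.p * q₂))
    have h3 : D.InL n a (a, 1) := by simp [InL]
    have h4 := (h3.sub h1).sub h2
    have h5 : ((a, 1) : R × R) - (D.p * q₁ * v₁.1, D.p * q₁ * v₁.2) -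
        (D.p * q₂ * w.1, D.p * q₂ * w.2) = u := by
      apply Prod.ext
      · simp only [Prod.fst_sub, hu]; ring
      · simp only [Prod.snd_sub, hu]; ring
    rw [h5] at h4
    exact h4
  · refine ⟨-(q₁ * v₁.2 + q₂ * w.2), ?_⟩
    simp only [hu]
    ring
  · calc D.ρ2 u ≤ d * N * (m + D.ρ2 w) := hρu
      _ ≤ d * N * (16 * D.A ^ 2 * D.κ ^ n / m + 2 * (16 * D.A ^ 2 * D.κ ^ n / m)) := by gcongr
      _ = 48 * d * N * D.A ^ 2 * D.κ ^ n / m := by ring

end Dat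

end Pool.Agent.H78R3.PiAdic
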