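import Pool.Agent.H78R3.Pi.Average

/-!
# Average `π`-adic complexity of finite sequences: the two cases
-/

namespace Pool.Agent.H78R3.PiAdic

open Finset Module

variable {R : Type*} [CommRing R] {d N : ℕ}

theorem Dat.exists_coord_eq (D : Dat R d N) (u : R) :
    ∃ i : Fin d, D.ρ u = |(D.b.repr u i : ℝ)| * D.κ ^ (i : ℕ) := by
  have : Nonempty (Fin d) := ⟨⟨0, D.hd⟩⟩
  obtain ⟨i, hi⟩ := Finite.exists_max (fun i : Fin d => |(D.b.repr u i : ℝ)| * D.κ ^ (i : ℕ))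
  refine ⟨i, le_antisymm ?_ (D.coord_le u i)⟩
  rw [D.ρ_le_iff u (mul_nonneg (abs_nonneg _) (pow_nonneg D.κ_pos.le _))]
  exact hi

theorem Dat.sizeII_eq (D : Dat R d N) {u : R} (hu : u ≠ 0) :
    sizeII N D.b u = d * Real.logb N (D.ρ u) := by
  have hN : (1 : ℝ) < N := by have := D.hN; exact_mod_cast (by omega : 1 < N)
  have hd : (0 : ℝ) < d := by exact_mod_cast D.hd
  have h1 : ∀ i : Fin d, D.b.repr u i ≠ 0 → d * Real.logb N |(D.b.repr u i : ℝ)| + (i : ℕ) =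
      d * Real.logb N (|(D.b.repr u i : ℝ)| * D.κ ^ (i : ℕ)) := by
    intro i hi
    have h2 : |(D.b.repr u i : ℝ)| ≠ 0 := abs_ne_zero.2 (by exact_mod_cast hi)
    rw [Real.logb_mul h2 (pow_ne_zero _ D.κ_pos.ne'), mul_add, D.logb_κ_pow]
  unfold sizeII
  apply IsGreatest.csSup_eq
  constructor
  · obtain ⟨i, hi⟩ := D.exists_coord_eq u
    have h2 := D.one_le_ρ hu
    have h3 : D.b.repr u i ≠ 0 := by
      intro h
      rw [hi, h] at h2
      simp at h2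
      linarith
    exact ⟨i, h3, by rw [h1 i h3, hi]⟩
  · rintro y ⟨i, hi, rfl⟩
    rw [h1 i hi]
    have h2 : 0 < |(D.b.repr u i : ℝ)| * D.κ ^ (i : ℕ) :=
      mul_pos (abs_pos.2 (by exact_mod_cast hi)) (pow_pos D.κ_pos _)
    have h3 := Real.logb_le_logb_of_le hN h2 (D.coord_le u i)
    gcongr

theorem sizeII_zero (b : Basis (Fin d) ℤ R) : sizeII N b (0 : R) = 0 := by
  unfold sizeII
  simp

theorem sizeI_zero (b : Basis (Fin 2) ℤ R) : sizeI N b (0 : R) = 0 := by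
  unfold sizeI
  simp

theorem Dat.sizeI_near (D : Dat R 2 N) {u : R} (hu : u ≠ 0) :
    |sizeI N D.b u - (2 : ℕ) * Real.logb N (D.ρ u)| ≤ 1 := by
  have hN2 : (2 : ℝ) ≤ N := by exact_mod_cast D.hN
  have hN : (1 : ℝ) < N := by linarith
  have h0 := D.one_le_ρ hu
  have hκ : D.κ ^ 2 = N := D.κ_pow
  set x : ℝ := (D.b.repr u 0 : ℝ) with hx
  set y : ℝ := (D.b.repr u 1 : ℝ) with hy
  have c0 : |x| ≤ D.ρ u := by
    have := D.coord_le u 0
    simpa using this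
  have c1 : |y| * D.κ ≤ D.ρ u := by
    have := D.coord_le u 1
    simpa using this
  have e0 : x ^ 2 ≤ D.ρ u ^ 2 := by
    rw [← sq_abs]
    exact pow_le_pow_left₀ (abs_nonneg _) c0 2
  have e1 : N * y ^ 2 ≤ D.ρ u ^ 2 := by
    rw [← hκ, ← sq_abs y, mul_comm, ← mul_pow]
    exact pow_le_pow_left₀ (mul_nonneg (abs_nonneg _) D.κ_pos.le) c1 2
  have e2 : D.ρ u ^ 2 ≤ x ^ 2 + N * y ^ 2 := by
    obtain ⟨i, hi⟩ := D.exists_coord_eq u
    have hN0 : (0 : ℝ) ≤ N := by linarith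
    fin_cases i
    · simp only [Fin.zero_eta, pow_zero, mul_one] at hi
      rw [hi, sq_abs]
      have : 0 ≤ N * y ^ 2 := by positivity
      linarith
    · simp only [Fin.mk_one, pow_one] at hi
      rw [hi, mul_pow, sq_abs, hκ]
      have : 0 ≤ x ^ 2 := by positivity
      linarith
  have hρ2 : 0 < D.ρ u ^ 2 := by positivity
  have l1 : Real.logb N (D.ρ u ^ 2) = (2 : ℕ) * Real.logb N (D.ρ u) := Real.logb_pow _ _ _
  have l2 : Real.logb N (D.ρ u ^ 2) ≤ Real.logb N (x ^ 2 + N * y ^ 2) :=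
    Real.logb_le_logb_of_le hN hρ2 e2
  have l3 : Real.logb N (x ^ 2 + N * y ^ 2) ≤ Real.logb N (2 * D.ρ u ^ 2) :=
    Real.logb_le_logb_of_le hN (by linarith) (by linarith)
  have l4 : Real.logb N (2 * D.ρ u ^ 2) = Real.logb N 2 + Real.logb N (D.ρ u ^ 2) :=
    Real.logb_mul (by norm_num) hρ2.ne'
  have l5 : Real.logb N 2 ≤ 1 := by
    rw [Real.logb_le_iff_le_rpow hN (by norm_num), Real.rpow_one]
    exact hN2
  unfold sizeI
  rw [← hx, ← hy, abs_le]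
  constructor <;> linarith

/-- Case (i). -/
theorem average_caseI [IsDomain R] (hN : 2 ≤ N) (p : R) (b : Basis (Fin 2) ℤ R)
    (hb : ∀ i, b i = p ^ (i : ℕ)) (hp : p ^ 2 = -(N : R)) :
    ∃ C : ℝ, ∀ n : ℕ, |avgComplexity N p (sizeI N b) n - (n : ℝ) / 2| ≤ C := by
  let D : Dat R 2 N := ⟨b, p, hb, -1, Or.inr rfl, by rw [hp]; push_cast; ring, hN, two_pos⟩
  have key := D.average (φ := sizeI N b) zero_le_one (sizeI_zero b)
    (fun u hu => D.sizeI_near hu)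
  have h5 : D.p = p := rfl
  rw [h5] at key
  generalize ((2 : ℕ) : ℝ) * Real.logb N (48 * ((2 : ℕ) : ℝ) * N * D.A ^ 2) = L at key
  refine ⟨4 / 3 * D.C6 + |L| + 1, fun n => ?_⟩
  obtain ⟨h1, h2⟩ := key n
  have h3 := le_abs_self L
  have h4 := abs_nonneg L
  rw [abs_le]
  constructor <;> linarith

/-- Case (ii). -/
theorem average_caseII [IsDomain R] (hN : 2 ≤ N) (hd : 1 ≤ d) (p : R) (b : Basis (Fin d) ℤ R)
    (hb : ∀ i, b i = p ^ (i : ℕ)) (hp : p ^ d = (N : R)) :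
    ∃ C : ℝ, ∀ n : ℕ, |avgComplexity N p (sizeII N b) n - (n : ℝ) / 2| ≤ C := by
  let D : Dat R d N := ⟨b, p, hb, 1, Or.inl rfl, by rw [hp]; push_cast; ring, hN, hd⟩
  refine ⟨4 / 3 * D.C6 + |d * Real.logb N (48 * d * N * D.A ^ 2)|, fun n => ?_⟩
  obtain ⟨h1, h2⟩ := D.average (φ := sizeII N b) le_rfl (sizeII_zero b)
    (fun u hu => by rw [D.sizeII_eq hu, sub_self, abs_zero]) n
  have h3 := le_abs_self ((d : ℝ) * Real.logb N (48 * d * N * D.A ^ 2))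
  have h4 := abs_nonneg ((d : ℝ) * Real.logb N (48 * d * N * D.A ^ 2))
  have h5 : D.p = p := rfl
  rw [h5] at h1 h2
  rw [abs_le]
  constructor <;> linarith

end Pool.Agent.H78R3.PiAdic
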